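import Pool.Agent.W214.BX.Alg2

set_option autoImplicit false

/-! # The critical point for `A = 3`: equations and numerical enclosures -/

namespace Run7.h858.A3

open Pool.Agent.W709.VC Pool.Agent.W719.BX Complex
open scoped Real

/-- the two real equations -/
theorem eqs {α b η : ℝ} (hC : Crit2 (((3 : ℕ) : ℝ) / 2) α b η) :
    Real.cos α = 1 + (2 * Real.cosh (η / 2) * Real.cos (b / 2)) -
      (2 * Real.cosh (η / 2) * Real.cos (b / 2)) ^ 2 +
      (2 * Real.sinh (η / 2) * Real.sin (b / 2)) ^ 2 ∧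
    Real.sin α = (2 * Real.sinh (η / 2) * Real.sin (b / 2)) *
      (2 * (2 * Real.cosh (η / 2) * Real.cos (b / 2)) - 1) := by
  have h := (Pool.Agent.W214.BX.alg2 3 α b η hC).1
  set S : ℝ := 2 * Real.cosh (η / 2) * Real.cos (b / 2) with hS
  set T : ℝ := 2 * Real.sinh (η / 2) * Real.sin (b / 2) with hT
  set u : ℂ := Complex.exp (-(((η : ℂ) + b * I) / 2)) with hu
  have hu0 : u ≠ 0 := Complex.exp_ne_zero _
  have hY : Complex.exp (-((η : ℂ) + b * I)) = u ^ 2 := by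
    rw [hu, ← Complex.exp_nat_mul]
    congr 1
    push_cast
    ring
  have hY3 : Complex.exp (-(((3 : ℕ) : ℂ) * ((η : ℂ) + b * I) / 2)) = u ^ 3 := by
    rw [hu, ← Complex.exp_nat_mul]
    congr 1
    push_cast
    ring
  have hn : ‖u‖ < 1 := by
    rw [hu, Complex.norm_exp]
    have : (-(((η : ℂ) + b * I) / 2)).re = -(η / 2) := by simp
    rw [this, Real.exp_lt_one_iff]
    linarith [hC.hη]
  have hu1 : 1 + u ≠ 0 := by
    intro h0
    have : u = -1 := by linear_combination h0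
    rw [this, norm_neg, norm_one] at hn
    exact lt_irrefl _ hn
  rw [hY, hY3] at h
  set X : ℂ := Complex.exp (-(α * I)) with hXd
  have h1 : (1 + u) * (X * u ^ 2 + (1 - u + u ^ 2 - u ^ 3 + u ^ 4)) = 0 := by
    linear_combination h
  have h2 : X * u ^ 2 + (1 - u + u ^ 2 - u ^ 3 + u ^ 4) = 0 :=
    (mul_eq_zero.1 h1).resolve_left hu1
  have h3 : X = 1 + (u + u⁻¹) - (u + u⁻¹) ^ 2 := by
    field_simp
    linear_combination h2
  have hs : u + u⁻¹ = (S : ℂ) + (T : ℂ) * I := by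
    have e1 : u + u⁻¹ = 2 * Complex.cosh (((η / 2 : ℝ) : ℂ) + ((b / 2 : ℝ) : ℂ) * I) := by
      rw [hu, ← Complex.exp_neg, Complex.cosh]
      have a1 : -(((η : ℂ) + b * I) / 2) = -(((η / 2 : ℝ) : ℂ) + ((b / 2 : ℝ) : ℂ) * I) := by
        push_cast; ring
      have a2 : -(-(((η : ℂ) + b * I) / 2)) = ((η / 2 : ℝ) : ℂ) + ((b / 2 : ℝ) : ℂ) * I := by
        push_cast; ring
      rw [a2, a1]
      ring
    rw [e1, Complex.cosh_add, Complex.cosh_mul_I, Complex.sinh_mul_I, hS, hT]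
    push_cast
    ring
  have hXe : X = (Real.cos α : ℂ) - (Real.sin α : ℂ) * I := by
    rw [hXd]
    have : -((α : ℂ) * I) = ((-α : ℝ) : ℂ) * I := by push_cast; ring
    rw [this, Complex.exp_mul_I, ← Complex.ofReal_cos, ← Complex.ofReal_sin, Real.cos_neg,
      Real.sin_neg]
    push_cast
    ring
  rw [hXe, hs] at h3
  have h4 : ((Real.cos α : ℝ) : ℂ) - ((Real.sin α : ℝ) : ℂ) * I =
      ((1 + S - S ^ 2 + T ^ 2 : ℝ) : ℂ) + ((T - 2 * S * T : ℝ) : ℂ) * I := by
    rw [h3]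
    push_cast
    ring_nf
    rw [Complex.I_sq]
    ring
  have hre := congrArg Complex.re h4
  have him := congrArg Complex.im h4
  simp only [Complex.sub_re, Complex.add_re, Complex.ofReal_re, Complex.re_ofReal_mul,
    Complex.I_re, mul_zero, sub_zero, add_zero] at hre
  simp only [Complex.sub_im, Complex.add_im, Complex.ofReal_im, Complex.im_ofReal_mul,
    Complex.I_im, mul_one, zero_sub, zero_add] at him
  exact ⟨hre, by linarith⟩

/-- the third equation -/
theorem eq2 {m α b η : ℝ} (hC : Crit2 m α b η) :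
    2 * Real.cos α * (1 + Real.cosh η * Real.cos b) =
      2 - Real.cosh η ^ 2 - Real.cos b ^ 2 := by
  have c2 := hC.c2
  have hs : 0 < 2 * Real.sin (α / 2) := by
    have : 0 < Real.sin (α / 2) := Real.sin_pos_of_pos_of_lt_pi (by linarith [hC.hα])
      (by linarith [Real.pi_pos, hC.hα2])
    linarith
  have hp1 : 0 < 2 * Real.cosh η + 2 * Real.cos (b - α) := by
    have := Real.one_lt_cosh.2 hC.hη.ne'
    linarith [Real.neg_one_le_cos (b - α)]
  have hp2 : 0 < 2 * Real.cosh η + 2 * Real.cos (b + α) := by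
    have := Real.one_lt_cosh.2 hC.hη.ne'
    linarith [Real.neg_one_le_cos (b + α)]
  have h1 : (2 * Real.cosh η + 2 * Real.cos (b + α)) * (2 * Real.cosh η + 2 * Real.cos (b - α)) =
      (2 * Real.sin (α / 2)) ^ 4 := by
    apply Real.log_injOn_pos (Set.mem_Ioi.mpr (mul_pos hp2 hp1)) (Set.mem_Ioi.mpr (pow_pos hs 4))
    rw [Real.log_mul hp2.ne' hp1.ne', Real.log_pow]
    push_cast
    exact c2
  have h2 : 2 * Real.sin (α / 2) ^ 2 = 1 - Real.cos α := by
    have h5 := Real.cos_two_mul (α / 2)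
    rw [show 2 * (α / 2) = α by ring] at h5
    have h6 := Real.sin_sq_add_cos_sq (α / 2)
    linarith
  have h3 : (2 * Real.sin (α / 2)) ^ 4 = 4 * (1 - Real.cos α) ^ 2 := by
    rw [← h2]; ring
  rw [h3, Real.cos_add, Real.cos_sub] at h1
  have h7 := Real.sin_sq_add_cos_sq b
  have h8 := Real.sin_sq_add_cos_sq α
  have h9 : (2 * Real.cosh η + 2 * (Real.cos b * Real.cos α - Real.sin b * Real.sin α)) *
      (2 * Real.cosh η + 2 * (Real.cos b * Real.cos α + Real.sin b * Real.sin α)) =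
      4 * (Real.cosh η ^ 2 + 2 * Real.cosh η * Real.cos b * Real.cos α +
        Real.cos b ^ 2 * Real.cos α ^ 2 - Real.sin b ^ 2 * Real.sin α ^ 2) := by ring
  rw [h9] at h1
  have h10 : Real.sin b ^ 2 = 1 - Real.cos b ^ 2 := by linarith
  have h11 : Real.sin α ^ 2 = 1 - Real.cos α ^ 2 := by linarith
  rw [h10, h11] at h1
  linarith

/-- the enclosures -/
theorem encl {α b η : ℝ} (hC : Crit2 (((3 : ℕ) : ℝ) / 2) α b η) :
    1.233 < Real.cosh η ∧ Real.cosh η < 1.234 := by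
  obtain ⟨e1, e1'⟩ := eqs hC
  have e2 := eq2 hC
  set S : ℝ := 2 * Real.cosh (η / 2) * Real.cos (b / 2) with hS
  set T : ℝ := 2 * Real.sinh (η / 2) * Real.sin (b / 2) with hT
  set p := Real.cos α with hp
  set q := Real.sin α with hq
  set C := Real.cosh η with hCd
  set c := Real.cos b with hcd
  have hb := hC.hb
  have hbm := hC.hbm
  have hη := hC.hη
  have hpi := Real.pi_pos
  have hbpi : b < π := by
    push_cast at hbm
    linarith
  have hpq : p ^ 2 + q ^ 2 = 1 := Real.cos_sq_add_sin_sq α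
  have hp0 : 0 < p := Real.cos_pos_of_mem_Ioo ⟨by linarith [hC.hα], hC.hα2⟩
  have hq0 : 0 < q := Real.sin_pos_of_pos_of_lt_pi hC.hα (by linarith [hC.hα2])
  have hp1 : p < 1 := by
    have : 0 < q ^ 2 := by positivity
    by_contra hcon
    push Not at hcon
    have h1 : (1 : ℝ) ^ 2 ≤ p ^ 2 := pow_le_pow_left₀ zero_le_one hcon 2
    linarith
  have hT0 : 0 < T := by
    have h1 : 0 < Real.sinh (η / 2) := Real.sinh_pos_iff.2 (by linarith)
    have h2 : 0 < Real.sin (b / 2) := Real.sin_pos_of_pos_of_lt_pi (by linarith) (by linarith)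
    positivity
  have hC1 : 1 < C := Real.one_lt_cosh.2 hη.ne'
  have hc1 : c ≤ 1 := Real.cos_le_one b
  have hCe : C = 2 * Real.cosh (η / 2) ^ 2 - 1 := by
    have := Real.cosh_two_mul (η / 2)
    rw [show 2 * (η / 2) = η by ring] at this
    have h3 := Real.cosh_sq (η / 2)
    linarith
  have hce : c = 2 * Real.cos (b / 2) ^ 2 - 1 := by
    rw [hcd, ← Real.cos_two_mul]
    ring_nf
  have hS2 : S ^ 2 = (1 + C) * (1 + c) := by
    rw [hS, hCe, hce]; ring
  have hT2 : T ^ 2 = (C - 1) * (1 - c) := by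
    have h3 := Real.cosh_sq (η / 2)
    have h4 := Real.sin_sq_add_cos_sq (b / 2)
    have h5 : Real.sinh (η / 2) ^ 2 = Real.cosh (η / 2) ^ 2 - 1 := by linarith
    have h6 : Real.sin (b / 2) ^ 2 = 1 - Real.cos (b / 2) ^ 2 := by linarith
    rw [hT, hCe, hce, mul_pow, mul_pow, h5, h6]; ring
  -- elementary form
  have hr : 0 < 2 * S - 1 := by
    have : 0 < T * (2 * S - 1) := by rw [← e1']; exact hq0
    exact (mul_pos_iff_of_pos_left hT0).1 this
  have k1 : 2 * (C * c) = S - 1 - p := by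
    rw [hS2, hT2] at e1
    linarith
  have k2 : C + c = (2 * S ^ 2 - S - 1 + p) / 2 := by
    have : S ^ 2 = 1 + (C + c) + C * c := by rw [hS2]; ring
    linarith
  have kA : (S ^ 2 - S - 1 + p) * (2 * S - 1) ^ 2 = 1 - p ^ 2 := by
    have h1 : T ^ 2 = S ^ 2 - S - 1 + p := by linarith
    have h2 : q ^ 2 = T ^ 2 * (2 * S - 1) ^ 2 := by rw [e1']; ring
    rw [← h1, ← h2]
    linarith
  have kB : (2 * S ^ 2 - S - 1 + p) ^ 2 = 4 * (S + 1 - p) * (1 - p) := by
    have h1 : (C + c) ^ 2 = 2 * (1 + C * c) * (1 - p) := by linarith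
    rw [k2] at h1
    have h2 : C * c = (S - 1 - p) / 2 := by linarith
    rw [h2] at h1
    linarith
  -- the quartic
  set r := 2 * S - 1 with hrd
  have hSr : S = (1 + r) / 2 := by rw [hrd]; ring
  set g := 2 * p + r ^ 2 with hg
  have hg0 : 0 < g := by positivity
  have hg2 : g ^ 2 = 5 * r ^ 2 + 4 := by
    rw [hSr] at kA
    rw [hg]
    linarith
  have hPQ : r ^ 4 + r ^ 3 + 17 / 2 * r ^ 2 + 3 * r + 8 = g * (2 * r ^ 2 + 3 / 2 * r + 4) := by
    have hpg : p = (g - r ^ 2) / 2 := by rw [hg]; ring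
    rw [hSr, hpg] at kB
    linear_combination (-1 : ℝ) * kB - (3 / 4) * hg2
  have hR : r ^ 2 * (r + 1) ^ 2 * (r ^ 4 - 3 * r ^ 2 - r - 8) = 0 := by
    have h1 : (r ^ 4 + r ^ 3 + 17 / 2 * r ^ 2 + 3 * r + 8) ^ 2 =
        (5 * r ^ 2 + 4) * (2 * r ^ 2 + 3 / 2 * r + 4) ^ 2 := by
      rw [hPQ, mul_pow, hg2]
    linear_combination h1
  have hq4 : r ^ 4 - 3 * r ^ 2 - r - 8 = 0 := by
    rcases mul_eq_zero.1 hR with h | h
    · exfalso
      have : 0 < r ^ 2 * (r + 1) ^ 2 := by positivity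
      linarith
    · exact h
  have r1 : 2.2438 < r := by
    by_contra hcon
    push Not at hcon
    have h1 : 0 < r ^ 3 + 2.2438 * r ^ 2 + (2.2438 ^ 2 - 3) * r + (2.2438 ^ 3 - 3 * 2.2438 - 1) := by
      have h2 : 0 < r ^ 3 := by positivity
      have h3 : 0 < r ^ 2 := by positivity
      norm_num
      nlinarith
    have h2 : (r - 2.2438) * (r ^ 3 + 2.2438 * r ^ 2 + (2.2438 ^ 2 - 3) * r +
        (2.2438 ^ 3 - 3 * 2.2438 - 1)) ≤ 0 := mul_nonpos_of_nonpos_of_nonneg (by linarith) h1.le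
    have h3 : (r - 2.2438) * (r ^ 3 + 2.2438 * r ^ 2 + (2.2438 ^ 2 - 3) * r +
        (2.2438 ^ 3 - 3 * 2.2438 - 1)) = (r ^ 4 - 3 * r ^ 2 - r - 8) -
        (2.2438 ^ 4 - 3 * 2.2438 ^ 2 - 2.2438 - 8) := by ring
    rw [h3, hq4] at h2
    norm_num at h2
  have r2 : r < 2.2439 := by
    by_contra hcon
    push Not at hcon
    have h1 : 0 < r ^ 3 + 2.2439 * r ^ 2 + (2.2439 ^ 2 - 3) * r + (2.2439 ^ 3 - 3 * 2.2439 - 1) := by
      have h2 : 0 < r ^ 3 := by positivity
      have h3 : 0 < r ^ 2 := by positivity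
      norm_num
      nlinarith
    have h2 : 0 ≤ (r - 2.2439) * (r ^ 3 + 2.2439 * r ^ 2 + (2.2439 ^ 2 - 3) * r +
        (2.2439 ^ 3 - 3 * 2.2439 - 1)) := mul_nonneg (by linarith) h1.le
    have h3 : (r - 2.2439) * (r ^ 3 + 2.2439 * r ^ 2 + (2.2439 ^ 2 - 3) * r +
        (2.2439 ^ 3 - 3 * 2.2439 - 1)) = (r ^ 4 - 3 * r ^ 2 - r - 8) -
        (2.2439 ^ 4 - 3 * 2.2439 ^ 2 - 2.2439 - 8) := by ring
    rw [h3, hq4] at h2
    norm_num at h2
  have s1 : 5.03463 < r ^ 2 := by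
    have h2 : (2.2438 : ℝ) ^ 2 < r ^ 2 := pow_lt_pow_left₀ r1 (by norm_num) two_ne_zero
    norm_num at h2
    linarith
  have s2 : r ^ 2 < 5.03509 := by
    have h2 : r ^ 2 < (2.2439 : ℝ) ^ 2 := pow_lt_pow_left₀ r2 hr.le two_ne_zero
    norm_num at h2
    linarith
  have g1 : 5.4012 < g := by
    by_contra hcon
    push Not at hcon
    have h1 : g ^ 2 ≤ 5.4012 ^ 2 := pow_le_pow_left₀ hg0.le hcon 2
    norm_num at h1
    linarith
  have g2 : g < 5.4015 := by
    by_contra hcon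
    push Not at hcon
    have h1 : (5.4015 : ℝ) ^ 2 ≤ g ^ 2 := pow_le_pow_left₀ (by norm_num) hcon 2
    norm_num at h1
    linarith
  have p1 : 0.1830 < p := by linarith
  have p2 : p < 0.1835 := by linarith
  -- sum and product of C and c
  have hσ : C + c = (r - 2 + g) / 4 := by
    rw [k2, hSr, hg]
    ring
  have hκ : C * c = ((1 + r) / 2 - 1 - p) / 2 := by rw [← hSr]; linarith
  have σ1 : 1.41125 < C + c := by rw [hσ]; linarith
  have σ2 : C + c < 1.41135 := by rw [hσ]; linarith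
  have κ1 : 0.2192 < C * c := by rw [hκ]; linarith
  have κ2 : C * c < 0.2195 := by rw [hκ]; linarith
  have hD : (C - c) ^ 2 = (C + c) ^ 2 - 4 * (C * c) := by ring
  have hCc : 0 ≤ C - c := by linarith
  have D1 : 1.0551 < C - c := by
    by_contra hcon
    push Not at hcon
    have h1 : (C - c) ^ 2 ≤ 1.0551 ^ 2 := pow_le_pow_left₀ hCc hcon 2
    have h2 : (1.41125 : ℝ) ^ 2 < (C + c) ^ 2 := pow_lt_pow_left₀ σ1 (by norm_num) two_ne_zero
    norm_num at h1 h2
    linarith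
  have D2 : C - c < 1.0561 := by
    by_contra hcon
    push Not at hcon
    have h1 : (1.0561 : ℝ) ^ 2 ≤ (C - c) ^ 2 := pow_le_pow_left₀ (by norm_num) hcon 2
    have h2 : (C + c) ^ 2 < 1.41135 ^ 2 := pow_lt_pow_left₀ σ2 (by linarith) two_ne_zero
    norm_num at h1 h2
    linarith
  constructor <;> linarith

end Run7.h858.A3
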