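import Pool.Agent.W363.BX.MXQ
import Pool.Agent.Run7.h858.A3.Encl

set_option autoImplicit false

/-! # The maximum on the horizontal line for `A = 3` -/

namespace Run7.h858.A3

open Filter Set GapVol Pool.Agent.W709.VC Pool.Agent.W719.BX Pool.Agent.W402.VC
open Pool.Agent.W363.BX
open scoped Real Topology

/-- the comparison polynomial -/
noncomputable def Ph3 (k a y : ℝ) : ℝ :=
  (8.5 - k * (-2.4 * y * (y + 0.42))) * (1 - y ^ 2 / 2 - y ^ 4 / 6) * (1.0395 - 0.288 * a) -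
    (6.5 + k * (-2.4 * y * (y + 0.42))) * (1.234 + a * y)

lemma bern (s t : ℝ) (hs : 0 ≤ s) (ht : 0 ≤ t) (k l : ℕ) : 0 ≤ s ^ k * t ^ l := by positivity

lemma p1a {y : ℝ} (h0 : -0.42 ≤ y) (h1 : y ≤ 0) : 0 ≤ Ph3 1 0.238 y := by
  have hs : 0 ≤ -y := by linarith
  have ht : 0 ≤ y + 0.42 := by linarith
  have b := bern (-y) (y + 0.42) hs ht
  unfold Ph3
  linarith [b 0 6, b 1 5, b 2 4, b 3 3, b 4 2, b 5 1, b 6 0]

lemma p1b {y : ℝ} (h0 : -0.42 ≤ y) (h1 : y ≤ 0) : 0 ≤ Ph3 1 0.316 y := by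
  have hs : 0 ≤ -y := by linarith
  have ht : 0 ≤ y + 0.42 := by linarith
  have b := bern (-y) (y + 0.42) hs ht
  unfold Ph3
  linarith [b 0 6, b 1 5, b 2 4, b 3 3, b 4 2, b 5 1, b 6 0]

lemma p2a {y : ℝ} (h0 : -0.5 ≤ y) (h1 : y ≤ -0.42) : 0 ≤ Ph3 0.866 0.238 y := by
  have hs : 0 ≤ -y - 0.42 := by linarith
  have ht : 0 ≤ y + 0.5 := by linarith
  have b := bern (-y - 0.42) (y + 0.5) hs ht
  unfold Ph3
  linarith [b 0 6, b 1 5, b 2 4, b 3 3, b 4 2, b 5 1, b 6 0]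

lemma p2b {y : ℝ} (h0 : -0.5 ≤ y) (h1 : y ≤ -0.42) : 0 ≤ Ph3 0.866 0.316 y := by
  have hs : 0 ≤ -y - 0.42 := by linarith
  have ht : 0 ≤ y + 0.5 := by linarith
  have b := bern (-y - 0.42) (y + 0.5) hs ht
  unfold Ph3
  linarith [b 0 6, b 1 5, b 2 4, b 3 3, b 4 2, b 5 1, b 6 0]

lemma Ph3_aff {k a y : ℝ} (ha : 0.238 ≤ a) (ha2 : a ≤ 0.316) (h1 : 0 ≤ Ph3 k 0.238 y)
    (h2 : 0 ≤ Ph3 k 0.316 y) : 0 ≤ Ph3 k a y := by
  have h3 := mul_nonneg (sub_nonneg.2 ha2) h1
  have h4 := mul_nonneg (sub_nonneg.2 ha) h2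
  have h5 : 0.078 * Ph3 k a y = (0.316 - a) * Ph3 k 0.238 y + (a - 0.238) * Ph3 k 0.316 y := by
    unfold Ph3
    ring
  linarith

/-- the algebraic inequality behind the comparison -/
lemma key_alg {y a E C r q : ℝ} (hy : -0.5 ≤ y) (hy0 : y ≤ 0) (ha : 0.238 ≤ a) (ha2 : a ≤ 0.316)
    (hE1 : 1 ≤ E) (hE : E ≤ 7.5) (hC1 : 1.233 ≤ C) (hC : C ≤ 1.234) (hr : 0 ≤ r)
    (hr2 : r ^ 2 = 1 - y ^ 2) (hq : 0 ≤ q) (hq2 : q ^ 2 = 1 - a ^ 2) :
    E * (C + (y * a - r * q)) - (C + (y * a + r * q)) ≤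
      2.4 * y * (y + 0.42) * r * (C + (y * a + r * q)) := by
  have hr1 : r ≤ 1 := by
    by_contra hcon
    push Not at hcon
    have := pow_lt_pow_left₀ hcon zero_le_one two_ne_zero
    have := sq_nonneg y
    linarith
  have hy2 : y ^ 2 ≤ 0.25 := by nlinarith
  have hrl : 1 - y ^ 2 / 2 - y ^ 4 / 6 ≤ r := by
    by_contra hcon
    push Not at hcon
    have h1 := pow_lt_pow_left₀ hcon hr two_ne_zero
    have h2 : 0 ≤ y ^ 4 * (1 / 12 - y ^ 2 / 6 - y ^ 4 / 36) := by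
      have h3 : y ^ 4 ≤ 0.0625 := by
        have : y ^ 4 = y ^ 2 * y ^ 2 := by ring
        rw [this]
        nlinarith [sq_nonneg y]
      have h4 : 0 ≤ y ^ 4 := by positivity
      apply mul_nonneg h4
      linarith
    have h3 : (1 - y ^ 2 / 2 - y ^ 4 / 6) ^ 2 = 1 - y ^ 2 -
      y ^ 4 * (1 / 12 - y ^ 2 / 6 - y ^ 4 / 36) := by ring
    rw [h3, hr2] at h1
    linarith
  have hr866 : 0.866 ≤ r := by
    by_contra hcon
    push Not at hcon
    have h1 := pow_lt_pow_left₀ hcon hr two_ne_zero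
    norm_num at h1
    linarith
  have hql : 1.0395 - 0.288 * a ≤ q := by
    by_contra hcon
    push Not at hcon
    have h1 := pow_lt_pow_left₀ hcon hq two_ne_zero
    have h2 : (a - 0.238) * (a - 0.316) ≤ 0 :=
      mul_nonpos_of_nonneg_of_nonpos (by linarith) (by linarith)
    rw [hq2] at h1
    nlinarith
  have hr10 : 0 ≤ 1 - y ^ 2 / 2 - y ^ 4 / 6 := by
    have : y ^ 4 = y ^ 2 * y ^ 2 := by ring
    nlinarith [sq_nonneg y]
  have hq10 : 0 ≤ 1.0395 - 0.288 * a := by linarith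
  set W := r * q with hW
  set D := C + y * a with hD
  have hW1 : (1 - y ^ 2 / 2 - y ^ 4 / 6) * (1.0395 - 0.288 * a) ≤ W :=
    mul_le_mul hrl hql hq10 hr
  have hq1 : q ≤ 1 := by
    by_contra hcon
    push Not at hcon
    have := pow_lt_pow_left₀ hcon zero_le_one two_ne_zero
    have := sq_nonneg a
    linarith
  have hWle : W ≤ 1 := by
    rw [hW]
    calc r * q ≤ 1 * 1 := mul_le_mul hr1 hq1 hq zero_le_one
      _ = 1 := one_mul 1
  have hW0 : 0 ≤ W := mul_nonneg hr hq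
  have hya : -0.158 ≤ y * a := by nlinarith
  have hya0 : y * a ≤ 0 := mul_nonpos_of_nonpos_of_nonneg hy0 (by linarith)
  have hDW : W ≤ D := by rw [hD]; linarith
  have hD0 : 0 ≤ D := by linarith
  have hD2 : D ≤ 1.234 + a * y := by rw [hD]; linarith
  -- the two cases
  have fin : ∀ k : ℝ, 0 ≤ k → k ≤ 1 →
      (-2.4 * y * (y + 0.42)) * r ≤ k * (-2.4 * y * (y + 0.42)) →
      |(-2.4 * y * (y + 0.42))| ≤ 1 → 0 ≤ Ph3 k a y →
      E * (C + (y * a - W)) - (C + (y * a + W)) ≤ 2.4 * y * (y + 0.42) * r * (C + (y * a + W)) := by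
    intro k hk0 hk1 hK hP hPh
    set P := -2.4 * y * (y + 0.42) with hPd
    have hkP : |k * P| ≤ 1 := by
      rw [abs_mul, abs_of_nonneg hk0]
      calc k * |P| ≤ 1 * 1 := mul_le_mul hk1 hP (abs_nonneg _) zero_le_one
        _ = 1 := one_mul 1
    obtain ⟨hkP1, hkP2⟩ := abs_le.1 hkP
    have g1 : 0 ≤ (7.5 - E) * (D - W) := mul_nonneg (by linarith) (by linarith)
    have g2 : 0 ≤ (k * P - P * r) * (W + D) := mul_nonneg (by linarith) (by linarith)
    have g3 : 0 ≤ (8.5 - k * P) * (W - (1 - y ^ 2 / 2 - y ^ 4 / 6) * (1.0395 - 0.288 * a)) :=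
      mul_nonneg (by linarith) (by linarith)
    have g4 : 0 ≤ (6.5 + k * P) * ((1.234 + a * y) - D) := mul_nonneg (by linarith) (by linarith)
    have hPh' : 0 ≤ (8.5 - k * P) * ((1 - y ^ 2 / 2 - y ^ 4 / 6) * (1.0395 - 0.288 * a)) -
      (6.5 + k * P) * (1.234 + a * y) := by
      have : Ph3 k a y = (8.5 - k * P) * ((1 - y ^ 2 / 2 - y ^ 4 / 6) * (1.0395 - 0.288 * a)) -
        (6.5 + k * P) * (1.234 + a * y) := by
        unfold Ph3
        rw [hPd]
        ring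
      rwa [this] at hPh
    have e1 : E * (C + (y * a - W)) - (C + (y * a + W)) = E * (D - W) - (D + W) := by
      rw [hD]; ring
    have e2 : 2.4 * y * (y + 0.42) * r * (C + (y * a + W)) = -(P * r) * (D + W) := by
      rw [hD, hPd]; ring
    rw [e1, e2]
    generalize (1 - y ^ 2 / 2 - y ^ 4 / 6) * (1.0395 - 0.288 * a) = W₁ at *
    generalize 1.234 + a * y = D₂ at *
    linarith
  rcases le_total (-0.42) y with hc | hc
  · have hP0 : 0 ≤ -2.4 * y * (y + 0.42) := by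
      have := mul_nonneg (show 0 ≤ -y by linarith) (show 0 ≤ y + 0.42 by linarith)
      linarith
    refine fin 1 zero_le_one le_rfl ?_ ?_ (Ph3_aff ha ha2 (p1a hc hy0) (p1b hc hy0))
    · rw [one_mul]
      calc _ ≤ (-2.4 * y * (y + 0.42)) * 1 := mul_le_mul_of_nonneg_left hr1 hP0
        _ = _ := mul_one _
    · rw [abs_of_nonneg hP0]
      nlinarith
  · have hP0 : -2.4 * y * (y + 0.42) ≤ 0 := by
      have := mul_nonneg (show 0 ≤ -y by linarith) (show 0 ≤ -(y + 0.42) by linarith)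
      linarith
    refine fin 0.866 (by norm_num) (by norm_num) ?_ ?_
      (Ph3_aff ha ha2 (p2a hy hc) (p2b hy hc))
    · have := mul_nonneg (sub_nonneg.2 hr866) (neg_nonneg.2 hP0)
      linarith
    · rw [abs_of_nonpos hP0]
      nlinarith

lemma exp3 {η : ℝ} (hη : 0 < η) (hC : Real.cosh η ≤ 1.234) : Real.exp (3 * η) ≤ 7.5 := by
  have h1 := Real.cosh_sq η
  have hC0 := Real.cosh_pos η
  have hs0 : 0 < Real.sinh η := Real.sinh_pos_iff.2 hη
  have hs : Real.sinh η ≤ 0.7231 := by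
    by_contra hcon
    push Not at hcon
    have h2 := pow_lt_pow_left₀ hcon (by norm_num) two_ne_zero
    have h3 := pow_le_pow_left₀ hC0.le hC 2
    norm_num at h2 h3
    linarith
  have h4 : Real.exp η ≤ 1.9571 := by
    rw [← Real.cosh_add_sinh]
    linarith
  have h5 : Real.exp (3 * η) = Real.exp η ^ 3 := by
    rw [← Real.exp_nat_mul]
    norm_num
  rw [h5]
  calc Real.exp η ^ 3 ≤ 1.9571 ^ 3 := pow_le_pow_left₀ (Real.exp_pos _).le h4 3
    _ ≤ 7.5 := by norm_num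

/-- the derivative in the horizontal direction -/
lemma F_le {η α x : ℝ} (hη : 0 < η) (hC1 : 1.233 ≤ Real.cosh η) (hC : Real.cosh η ≤ 1.234)
    (hα0 : 0 ≤ α) (hαπ : α ≤ π) (ha : 0.238 ≤ Real.cos α) (ha2 : Real.cos α ≤ 0.316)
    (hx1 : π / 2 ≤ x) (hx2 : x ≤ 2 * π / 3) :
    Fb (3 / 4) η α x ≤ 2.4 * Real.cos x * (Real.cos x + 0.42) * Real.sin x := by
  have hpi := Real.pi_pos
  have hy0 : Real.cos x ≤ 0 := Real.cos_nonpos_of_pi_div_two_le_of_le hx1 (by linarith)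
  have hy : -0.5 ≤ Real.cos x := by
    have h1 : Real.cos (2 * π / 3) ≤ Real.cos x :=
      Real.cos_le_cos_of_nonneg_of_le_pi (by linarith) (by linarith) hx2
    have h2 : Real.cos (2 * π / 3) = -(1 / 2) := by
      rw [show 2 * π / 3 = π - π / 3 by ring, Real.cos_pi_sub, Real.cos_pi_div_three]
    rw [h2] at h1
    linarith
  have hr : 0 ≤ Real.sin x := Real.sin_nonneg_of_nonneg_of_le_pi (by linarith) (by linarith)
  have hq : 0 ≤ Real.sin α := Real.sin_nonneg_of_nonneg_of_le_pi hα0 hαπ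
  have hE1 : 1 ≤ Real.exp (3 * η) := Real.one_le_exp (by linarith)
  have hE := exp3 hη hC
  have key := key_alg hy hy0 ha ha2 hE1 hE hC1 hC hr (by
    have := Real.sin_sq_add_cos_sq x; linarith) hq (by
    have := Real.sin_sq_add_cos_sq α; linarith)
  have p1 := arg_pos hη (x + α)
  have p2 := arg_pos hη (x - α)
  have e0 : Fb (3 / 4) η α x = Real.log (Real.exp (3 * η) * (2 * Real.cosh η + 2 * Real.cos (x + α)) /
      (2 * Real.cosh η + 2 * Real.cos (x - α))) := by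
    unfold Fb ell
    rw [Real.log_div (by positivity) p2.ne', Real.log_mul (Real.exp_ne_zero _) p1.ne', Real.log_exp]
    ring
  rw [e0]
  refine (Real.log_le_sub_one_of_pos (by positivity)).trans ?_
  have e1 : Real.exp (3 * η) * (2 * Real.cosh η + 2 * Real.cos (x + α)) /
      (2 * Real.cosh η + 2 * Real.cos (x - α)) - 1 =
      (Real.exp (3 * η) * (Real.cosh η + Real.cos (x + α)) - (Real.cosh η + Real.cos (x - α))) /
        (Real.cosh η + Real.cos (x - α)) := by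
    have p3 : Real.cosh η + Real.cos (x - α) ≠ 0 := by
      intro h
      have : 2 * Real.cosh η + 2 * Real.cos (x - α) = 0 := by linarith
      linarith
    have p4 : 2 * Real.cosh η + 2 * Real.cos (x - α) ≠ 0 := p2.ne'
    field_simp
  rw [e1, div_le_iff₀ (by linarith), Real.cos_add, Real.cos_sub]
  exact key

/-- the comparison function -/
noncomputable def Bf (y : ℝ) : ℝ := -0.8 * y ^ 3 - 0.504 * y ^ 2

lemma Bf_neg {y : ℝ} (h0 : -0.5 ≤ y) (h1 : y < 0) : Bf y < 0 := by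
  have h2 : 0 < y ^ 2 := by rw [sq]; exact mul_pos_of_neg_of_neg h1 h1
  have h3 : 0 < y ^ 2 * (0.8 * y + 0.504) := mul_pos h2 (by linarith)
  unfold Bf
  linarith

lemma dec {η α x : ℝ} (hη : 0 < η) (hC1 : 1.233 ≤ Real.cosh η) (hC : Real.cosh η ≤ 1.234)
    (hα0 : 0 ≤ α) (hαπ : α ≤ π) (ha : 0.238 ≤ Real.cos α) (ha2 : Real.cos α ≤ 0.316)
    (hx1 : π / 2 ≤ x) (hx2 : x ≤ 2 * π / 3) :
    pot (3 / 4) α x η ≤ pot (3 / 4) α (π / 2) η + Bf (Real.cos x) := by
  have hd : ∀ x : ℝ, HasDerivAt (fun x => pot (3 / 4) α x η - Bf (Real.cos x))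
      (Fb (3 / 4) η α x - 2.4 * Real.cos x * (Real.cos x + 0.42) * Real.sin x) x := by
    intro x
    have h1 : HasDerivAt (fun b => pot (3 / 4) α b η) (Fb (3 / 4) η α x) x := potb_hasDeriv hη x
    have h2 := Real.hasDerivAt_cos x
    have h3 : HasDerivAt (fun x => Bf (Real.cos x))
        (-0.8 * ((3 : ℕ) * Real.cos x ^ 2 * -Real.sin x) -
          0.504 * ((2 : ℕ) * Real.cos x ^ 1 * -Real.sin x)) x := by
      unfold Bf
      exact ((h2.pow 3).const_mul (-0.8)).sub ((h2.pow 2).const_mul 0.504)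
    refine (h1.sub h3).congr_deriv ?_
    push_cast
    ring
  have hanti : AntitoneOn (fun x => pot (3 / 4) α x η - Bf (Real.cos x)) (Icc (π / 2) (2 * π / 3)) := by
    apply antitoneOn_of_deriv_nonpos (convex_Icc _ _)
    · intro x _
      exact (hd x).continuousAt.continuousWithinAt
    · intro x _
      exact (hd x).differentiableAt.differentiableWithinAt
    · intro x hx
      rw [interior_Icc] at hx
      rw [(hd x).deriv]
      have := F_le hη hC1 hC hα0 hαπ ha ha2 hx.1.le hx.2.le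
      linarith
  have := hanti ⟨le_rfl, hx1.trans hx2⟩ ⟨hx1, hx2⟩ hx1
  simp only [Real.cos_pi_div_two] at this
  have h0 : Bf 0 = 0 := by unfold Bf; ring
  rw [h0] at this
  linarith

lemma prod_eq (η x α : ℝ) : (2 * Real.cosh η + 2 * Real.cos (x + α)) *
    (2 * Real.cosh η + 2 * Real.cos (x - α)) = 4 * (1 - Real.cos α) ^ 2 +
    4 * (Real.cosh η ^ 2 + Real.cos x ^ 2 - 2 +
      2 * Real.cos α * (1 + Real.cosh η * Real.cos x)) := by
  rw [Real.cos_add, Real.cos_sub]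
  have h1 := Real.sin_sq_add_cos_sq x
  have h2 := Real.sin_sq_add_cos_sq α
  have h3 : Real.sin x ^ 2 = 1 - Real.cos x ^ 2 := by linarith
  have h4 : Real.sin α ^ 2 = 1 - Real.cos α ^ 2 := by linarith
  have h5 : (2 * Real.cosh η + 2 * (Real.cos x * Real.cos α - Real.sin x * Real.sin α)) *
      (2 * Real.cosh η + 2 * (Real.cos x * Real.cos α + Real.sin x * Real.sin α)) =
      4 * (Real.cosh η ^ 2 + 2 * Real.cosh η * Real.cos x * Real.cos α +
        Real.cos x ^ 2 * Real.cos α ^ 2 - Real.sin x ^ 2 * Real.sin α ^ 2) := by ring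
  rw [h5, h3, h4]
  ring

lemma sin4 (α : ℝ) : (2 * Real.sin (α / 2)) ^ 4 = 4 * (1 - Real.cos α) ^ 2 := by
  have h3 : Real.cos α = 2 * Real.cos (α / 2) ^ 2 - 1 := by
    rw [← Real.cos_two_mul]; congr 1; ring
  have h4 := Real.sin_sq_add_cos_sq (α / 2)
  have h5 : 1 - Real.cos α = 2 * Real.sin (α / 2) ^ 2 := by rw [h3]; linarith
  rw [h5]
  ring

/-- the maximum over `α` -/
lemma al_max {η x α : ℝ} (hη : 0 < η) (hC1 : 1.233 ≤ Real.cosh η) (hC : Real.cosh η ≤ 1.234)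
    (hα0 : 0 ≤ α) (hαπ : α ≤ π) (hx1 : π / 2 ≤ x) (hx2 : x ≤ 2 * π / 3) :
    ∃ α' : ℝ, 0 ≤ α' ∧ α' ≤ π / 2 ∧ 0.238 ≤ Real.cos α' ∧ Real.cos α' ≤ 0.316 ∧
      pot (3 / 4) α x η ≤ pot (3 / 4) α' x η := by
  have hpi := Real.pi_pos
  have hy0 : Real.cos x ≤ 0 := Real.cos_nonpos_of_pi_div_two_le_of_le hx1 (by linarith)
  have hy : -0.5 ≤ Real.cos x := by
    have h1 : Real.cos (2 * π / 3) ≤ Real.cos x :=
      Real.cos_le_cos_of_nonneg_of_le_pi (by linarith) (by linarith) hx2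
    have h2 : Real.cos (2 * π / 3) = -(1 / 2) := by
      rw [show 2 * π / 3 = π - π / 3 by ring, Real.cos_pi_sub, Real.cos_pi_div_three]
    rw [h2] at h1
    linarith
  set C := Real.cosh η with hCd
  set y := Real.cos x with hyd
  have hden : 0 < 1 + C * y := by nlinarith
  set a := (2 - C ^ 2 - y ^ 2) / (2 * (1 + C * y)) with had
  have ha1 : 0.238 ≤ a := by
    rw [had, le_div_iff₀ (by linarith)]
    have h1 : 0 ≤ (1.234 - C) * (C + 1.234) := mul_nonneg (by linarith) (by linarith)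
    have h2 : 0 ≤ -y * (y + 0.476 * C) := mul_nonneg (by linarith) (by linarith)
    nlinarith
  have ha2 : a ≤ 0.316 := by
    rw [had, div_le_iff₀ (by linarith)]
    have h1 : 0 ≤ (C - 1.233) * (C + 1.233 + 0.632 * y) := mul_nonneg (by linarith) (by linarith)
    nlinarith [sq_nonneg (y + 0.389628)]
  have hae : 2 * a * (1 + C * y) = 2 - C ^ 2 - y ^ 2 := by
    rw [had]
    field_simp
  set α' := Real.arccos a with hα'
  have hcos : Real.cos α' = a := Real.cos_arccos (by linarith) (by linarith)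
  have hα'0 : 0 ≤ α' := Real.arccos_nonneg a
  have hα'2 : α' ≤ π / 2 := Real.arccos_le_pi_div_two.2 (by linarith)
  have hα'pos : 0 < α' := Real.arccos_pos.2 (by linarith)
  refine ⟨α', hα'0, hα'2, by rw [hcos]; exact ha1, by rw [hcos]; exact ha2, ?_⟩
  have hd : ∀ α, 0 < α → α < 2 * π → HasDerivAt (fun α => pot (3 / 4) α x η)
      (-4 * Real.log (2 * Real.sin (α / 2)) + ell η (x + α) + ell η (x - α)) α := by
    intro α h0 h1
    have h2 := pot_hasDeriv (m := 3 / 4) (α₀ := 0) (b₀ := x) (x := 1) (y := 0) (t := α) hη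
      (by linarith) (by linarith)
    simp only [mul_one, zero_add, mul_zero, add_zero] at h2
    refine h2.congr_deriv ?_
    unfold dpot
    ring
  have hcont : Continuous fun α => pot (3 / 4) α x η :=
    (pot_cont (3 / 4) hη).comp (by fun_prop : Continuous fun α : ℝ => (α, x))
  have e1 : ∀ α, 0 < α → α < π → -4 * Real.log (2 * Real.sin (α / 2)) + ell η (x + α) +
      ell η (x - α) = Real.log (4 * (1 - Real.cos α) ^ 2 +
    4 * (C ^ 2 + y ^ 2 - 2 + 2 * Real.cos α * (1 + C * y))) -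
      Real.log (4 * (1 - Real.cos α) ^ 2) := by
    intro α h0 h1
    have hs : 0 < Real.sin (α / 2) := Real.sin_pos_of_pos_of_lt_pi (by linarith) (by linarith)
    have k1 := prod_eq η x α
    rw [← hCd, ← hyd] at k1
    rw [← k1, ← sin4, Real.log_pow, Real.log_mul (arg_pos hη _).ne' (arg_pos hη _).ne']
    unfold ell
    push_cast
    ring
  have hpos : ∀ α, 0 < α → α < π → 0 < 4 * (1 - Real.cos α) ^ 2 := by
    intro α h0 h1
    have : Real.cos α < 1 := by
      rw [← Real.cos_zero]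
      exact Real.cos_lt_cos_of_nonneg_of_le_pi le_rfl h1.le h0
    have : 0 < 1 - Real.cos α := by linarith
    positivity
  have hpos2 : ∀ α, 0 < 4 * (1 - Real.cos α) ^ 2 +
      4 * (C ^ 2 + y ^ 2 - 2 + 2 * Real.cos α * (1 + C * y)) := by
    intro α
    rw [← prod_eq]
    exact mul_pos (arg_pos hη _) (arg_pos hη _)
  rcases le_total α α' with h | h
  · have hmono : MonotoneOn (fun α => pot (3 / 4) α x η) (Icc 0 α') := by
      apply monotoneOn_of_deriv_nonneg (convex_Icc _ _) hcont.continuousOn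
      · intro β hβ
        rw [interior_Icc] at hβ
        exact (hd β hβ.1 (by linarith [hβ.2])).differentiableAt.differentiableWithinAt
      · intro β hβ
        rw [interior_Icc] at hβ
        rw [(hd β hβ.1 (by linarith [hβ.2])).deriv, e1 β hβ.1 (by linarith [hβ.2])]
        have h1 : a ≤ Real.cos β := by
          rw [← hcos]
          exact Real.cos_le_cos_of_nonneg_of_le_pi hβ.1.le (by linarith) hβ.2.le
        have h2 := Real.log_le_log (hpos β hβ.1 (by linarith [hβ.2]))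
          (show 4 * (1 - Real.cos β) ^ 2 ≤ 4 * (1 - Real.cos β) ^ 2 +
            4 * (C ^ 2 + y ^ 2 - 2 + 2 * Real.cos β * (1 + C * y)) by
            have := mul_nonneg (sub_nonneg.2 h1) hden.le
            linarith)
        linarith
    exact hmono ⟨hα0, h⟩ ⟨hα'0, le_rfl⟩ h
  · have hanti : AntitoneOn (fun α => pot (3 / 4) α x η) (Icc α' π) := by
      apply antitoneOn_of_deriv_nonpos (convex_Icc _ _) hcont.continuousOn
      · intro β hβ
        rw [interior_Icc] at hβ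
        exact (hd β (by linarith [hβ.1]) (by linarith [hβ.2])).differentiableAt.differentiableWithinAt
      · intro β hβ
        rw [interior_Icc] at hβ
        rw [(hd β (by linarith [hβ.1]) (by linarith [hβ.2])).deriv,
          e1 β (by linarith [hβ.1]) hβ.2]
        have h1 : Real.cos β ≤ a := by
          rw [← hcos]
          exact Real.cos_le_cos_of_nonneg_of_le_pi hα'0 hβ.2.le hβ.1.le
        have h2 := Real.log_le_log (hpos2 β)
          (show 4 * (1 - Real.cos β) ^ 2 +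
            4 * (C ^ 2 + y ^ 2 - 2 + 2 * Real.cos β * (1 + C * y)) ≤ 4 * (1 - Real.cos β) ^ 2 by
            have := mul_nonneg (sub_nonneg.2 h1) hden.le
            linarith)
        linarith
    exact hanti ⟨le_rfl, by linarith⟩ ⟨h, hαπ⟩ h

/-- a critical point for `A = 3` -/
structure Crit3 (α b η : ℝ) : Prop where
  c : Crit2 (((3 : ℕ) : ℝ) / 2) α b η
  hb : b < π / 2

lemma max3 {α₀ b₀ η : ℝ} (hc : Crit3 α₀ b₀ η) {α b : ℝ} (hα : 0 ≤ α) (hb : 0 ≤ b)
    (hb2 : b ≤ π / 2) (hαb : α + b ≤ π) : pot (3 / 4) α b η ≤ pot (3 / 4) α₀ b₀ η := by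
  have c := hc.c
  have hc1 : 4 * (3 / 4) * η + ell η (b₀ + α₀) - ell η (b₀ - α₀) = 0 := by
    have := c.c1
    push_cast at this
    linarith
  exact maxg (3 / 4) α₀ b₀ η c.hη c.hα c.hb hc.hb (by linarith [c.hα2, hc.hb]) hc1 c.c2 α b hα hb
    hb2 hαb

/-- beyond `π / 2` -/
lemma far3 {α₀ b₀ η : ℝ} (hc : Crit3 α₀ b₀ η) {α x : ℝ} (hα0 : 0 ≤ α) (hαπ : α ≤ π)
    (hx1 : π / 2 ≤ x) (hx2 : x ≤ 2 * π / 3) :
    pot (3 / 4) α x η ≤ pot (3 / 4) α₀ b₀ η + Bf (Real.cos x) := by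
  have hpi := Real.pi_pos
  obtain ⟨e1, e2⟩ := encl hc.c
  obtain ⟨α', h1, h2, h3, h4, h5⟩ := al_max hc.c.hη e1.le e2.le hα0 hαπ hx1 hx2
  have h6 := dec hc.c.hη e1.le e2.le h1 (by linarith) h3 h4 hx1 hx2
  have h7 := max3 hc h1 (show (0 : ℝ) ≤ π / 2 by positivity) le_rfl (by linarith)
  linarith

theorem mx3 {α₀ b₀ η : ℝ} (hc : Crit3 α₀ b₀ η) {α x : ℝ} (hα0 : 0 ≤ α) (hα1 : α ≤ π) (hx0 : 0 ≤ x)
    (hx1 : x ≤ 2 * π / 3) : hp (((3 : ℕ) : ℝ) / 2) α x η ≤ hp (((3 : ℕ) : ℝ) / 2) α₀ b₀ η := by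
  have hpi := Real.pi_pos
  have e : (((3 : ℕ) : ℝ) / 2) / 2 = 3 / 4 := by norm_num
  rw [hp_eq, hp_eq, e]
  rcases le_total x (π / 2) with hx | hx
  · rcases le_total (α + x) π with h | h
    · linarith [max3 hc hα0 hx0 hx h]
    · have h1 : pot (3 / 4) α x η ≤ pot (3 / 4) (π - x) x η :=
        anti hc.c.hη hc.c.hX hx0 hx ⟨le_rfl, by linarith⟩ ⟨by linarith, hα1⟩ (by linarith)
      have h2 := max3 hc (α := π - x) (b := x) (by linarith) hx0 hx (by linarith)
      linarith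
  · have h1 := far3 hc hα0 hα1 hx hx1
    have h2 : Bf (Real.cos x) ≤ 0 := by
      have hy0 : Real.cos x ≤ 0 := Real.cos_nonpos_of_pi_div_two_le_of_le hx (by linarith)
      have hy : -0.5 ≤ Real.cos x := by
        have h1 : Real.cos (2 * π / 3) ≤ Real.cos x :=
          Real.cos_le_cos_of_nonneg_of_le_pi (by linarith) (by linarith) hx1
        have h2 : Real.cos (2 * π / 3) = -(1 / 2) := by
          rw [show 2 * π / 3 = π - π / 3 by ring, Real.cos_pi_sub, Real.cos_pi_div_three]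
        rw [h2] at h1
        linarith
      rcases hy0.lt_or_eq with h | h
      · exact (Bf_neg hy h).le
      · rw [h]; unfold Bf; norm_num
    linarith

theorem quad3 {α₀ b₀ η : ℝ} (hc : Crit3 α₀ b₀ η) : ∃ c : ℝ, 0 < c ∧
    ∀ x : ℝ, -π ≤ x → x ≤ 2 * π / 3 → hp (((3 : ℕ) : ℝ) / 2) α₀ x η ≤
      hp (((3 : ℕ) : ℝ) / 2) α₀ b₀ η - c * (x - b₀) ^ 2 := by
  have hpi := Real.pi_pos
  have c := hc.c
  have e : (((3 : ℕ) : ℝ) / 2) / 2 = 3 / 4 := by norm_num
  have hc1 : 4 * (3 / 4) * η + ell η (b₀ + α₀) - ell η (b₀ - α₀) = 0 := by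
    have := c.c1
    push_cast at this
    linarith
  obtain ⟨c₁, hc₁, h1⟩ := quadg (3 / 4) α₀ b₀ η (π / 2) (by norm_num) c.hη c.hα c.hb hc1 hc.hb le_rfl
    (by linarith [c.hα2])
  have hcont : Continuous fun x => pot (3 / 4) α₀ x η :=
    (pot_cont (3 / 4) c.hη).comp (by fun_prop : Continuous fun x : ℝ => (α₀, x))
  obtain ⟨z, hz, hzmax⟩ := (isCompact_Icc (a := π / 2) (b := 2 * π / 3)).exists_isMaxOn
    ⟨π / 2, by constructor <;> linarith⟩ hcont.continuousOn
  have hzlt : pot (3 / 4) α₀ z η < pot (3 / 4) α₀ b₀ η := by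
    rcases hz.1.lt_or_eq with h | h
    · have h2 := far3 hc c.hα.le (by linarith [c.hα2]) hz.1 hz.2
      have hy0 : Real.cos z < 0 := Real.cos_neg_of_pi_div_two_lt_of_lt h (by linarith [hz.2])
      have hy : -0.5 ≤ Real.cos z := by
        have h1 : Real.cos (2 * π / 3) ≤ Real.cos z :=
          Real.cos_le_cos_of_nonneg_of_le_pi (by linarith [hz.1]) (by linarith) hz.2
        have h2 : Real.cos (2 * π / 3) = -(1 / 2) := by
          rw [show 2 * π / 3 = π - π / 3 by ring, Real.cos_pi_sub, Real.cos_pi_div_three]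
        rw [h2] at h1
        linarith
      have := Bf_neg hy hy0
      linarith
    · have h2 := h1 z (by linarith) (by linarith)
      have h3 : 0 < c₁ * (z - b₀) ^ 2 := by
        have : 0 < z - b₀ := by linarith [hc.hb]
        positivity
      linarith
  set δ := pot (3 / 4) α₀ b₀ η - pot (3 / 4) α₀ z η with hδ
  have hδ0 : 0 < δ := by linarith
  refine ⟨min c₁ (δ / π ^ 2), lt_min hc₁ (by positivity), fun x hx0 hx1 => ?_⟩
  rw [hp_eq, hp_eq, e]
  rcases le_total x (π / 2) with hx | hx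
  · have h2 := h1 x hx0 hx
    have h3 : min c₁ (δ / π ^ 2) * (x - b₀) ^ 2 ≤ c₁ * (x - b₀) ^ 2 :=
      mul_le_mul_of_nonneg_right (min_le_left _ _) (sq_nonneg _)
    linarith
  · have h2 : pot (3 / 4) α₀ x η ≤ pot (3 / 4) α₀ z η := hzmax ⟨hx, hx1⟩
    have h3 : min c₁ (δ / π ^ 2) * (x - b₀) ^ 2 ≤ δ / π ^ 2 * (x - b₀) ^ 2 :=
      mul_le_mul_of_nonneg_right (min_le_right _ _) (sq_nonneg _)
    have h4 : (x - b₀) ^ 2 ≤ π ^ 2 := by
      apply pow_le_pow_left₀
      · linarith [hc.hb]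
      · linarith [c.hb]
    have h5 : δ / π ^ 2 * (x - b₀) ^ 2 ≤ δ / π ^ 2 * π ^ 2 :=
      mul_le_mul_of_nonneg_left h4 (by positivity)
    have h6 : δ / π ^ 2 * π ^ 2 = δ := by field_simp
    linarith

end Run7.h858.A3
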