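import Pool.Agent.Run7.h858.A3.Good
import Pool.Agent.Run7.h858.A3.Mx3
import Pool.Agent.W52.BX.Bnd

set_option autoImplicit false

/-! # The facts on the critical point for `A = 3` -/

namespace Run7.h858.A3

open Filter Set GapVol Pool.Agent.W709.VC Pool.Agent.W719.BX Pool.Agent.W402.VC
open scoped Real Topology

lemma pi3 : π / (((3 : ℕ) : ℝ) / 2) = 2 * π / 3 := by
  push_cast
  ring

/-- the value at `(π/3, π/2)` -/
lemma low3 {α₀ b₀ η : ℝ} (hc : Crit3 α₀ b₀ η) :
    16 * GapVol.lob (π / 6) ≤ 2 * hp (((3 : ℕ) : ℝ) / 2) α₀ b₀ η := by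
  have hpi := Real.pi_pos
  obtain ⟨e1, e2⟩ := encl hc.c
  have hη := hc.c.hη
  have h1 := mx3 hc (α := π / 3) (x := π / 2) (by positivity) (by linarith) (by positivity)
    (by linarith)
  have hcont : Continuous fun τ => ell η τ := by
    unfold ell
    refine Continuous.log (by fun_prop) fun τ => (arg_pos hη τ).ne'
  have hI : Lf η (π / 2 + π / 3) - Lf η (π / 2 - π / 3) = ∫ τ in (π / 6)..(5 * π / 6), ell η τ := by
    unfold Lf
    rw [intervalIntegral.integral_interval_sub_left (hcont.intervalIntegrable _ _)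
      (hcont.intervalIntegrable _ _)]
    congr 1 <;> ring
  have hR : ∫ τ in (π / 6)..(5 * π / 6), ell η (π - τ) = ∫ τ in (π / 6)..(5 * π / 6), ell η τ := by
    rw [intervalIntegral.integral_comp_sub_left (fun τ => ell η τ)]
    congr 1 <;> ring
  have hcont2 : Continuous fun τ => ell η (π - τ) := hcont.comp (by fun_prop)
  have hsum : ∫ τ in (π / 6)..(5 * π / 6), (ell η τ + ell η (π - τ)) =
      2 * ∫ τ in (π / 6)..(5 * π / 6), ell η τ := by
    rw [intervalIntegral.integral_add (hcont.intervalIntegrable _ _)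
      (hcont2.intervalIntegrable _ _), hR]
    ring
  have hC2 : 1.52 ≤ Real.cosh η ^ 2 := by
    have := pow_le_pow_left₀ (by norm_num) e1.le 2
    norm_num at this
    linarith
  have hlow : ∫ _τ in (π / 6)..(5 * π / 6), Real.log 3.08 ≤
      ∫ τ in (π / 6)..(5 * π / 6), (ell η τ + ell η (π - τ)) := by
    apply intervalIntegral.integral_mono_on (by linarith) (by simp)
      ((hcont.add hcont2).intervalIntegrable _ _)
    intro τ hτ
    have hp1 := arg_pos hη τ
    have hp2 := arg_pos hη (π - τ)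
    change Real.log 3.08 ≤ Real.log (2 * Real.cosh η + 2 * Real.cos τ) +
      Real.log (2 * Real.cosh η + 2 * Real.cos (π - τ))
    rw [← Real.log_mul hp1.ne' hp2.ne']
    apply Real.log_le_log (by norm_num)
    rw [Real.cos_pi_sub]
    have hcos : Real.cos τ ^ 2 ≤ 3 / 4 := by
      have h3 : |Real.cos τ| ≤ √3 / 2 := by
        rw [abs_le]
        constructor
        · have h4 : Real.cos (5 * π / 6) ≤ Real.cos τ :=
            Real.cos_le_cos_of_nonneg_of_le_pi (by linarith [hτ.1]) (by linarith) hτ.2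
          rw [show 5 * π / 6 = π - π / 6 by ring, Real.cos_pi_sub, Real.cos_pi_div_six] at h4
          exact h4
        · have h4 : Real.cos τ ≤ Real.cos (π / 6) :=
            Real.cos_le_cos_of_nonneg_of_le_pi (by linarith) (by linarith [hτ.2]) hτ.1
          rw [Real.cos_pi_div_six] at h4
          exact h4
      have h5 := pow_le_pow_left₀ (abs_nonneg _) h3 2
      rw [sq_abs, div_pow, Real.sq_sqrt (by norm_num)] at h5
      linarith
    nlinarith
  rw [intervalIntegral.integral_const, hsum, smul_eq_mul] at hlow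
  have hE := exp3 hη e2.le
  have hη3 : 3 * η ≤ Real.log 7.5 := by
    rw [Real.le_log_iff_exp_le (by norm_num)]
    exact hE
  have hlog : Real.log 7.5 ≤ 2 * Real.log 3.08 := by
    have h3 : (2 : ℝ) * Real.log 3.08 = Real.log (3.08 ^ 2) := by
      rw [Real.log_pow]
      norm_num
    rw [h3]
    exact Real.log_le_log (by norm_num) (by norm_num)
  have h2 : hp (((3 : ℕ) : ℝ) / 2) (π / 3) (π / 2) η = 8 * lob (π / 6) - π / 2 * η +
      ∫ τ in (π / 6)..(5 * π / 6), ell η τ := by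
    unfold hp
    rw [hI, show π / 3 / 2 = π / 6 by ring]
    push_cast
    ring
  have h3 : π / 2 * η ≤ ∫ τ in (π / 6)..(5 * π / 6), ell η τ := by
    have h4 : π / 6 * (3 * η) ≤ π / 6 * (2 * Real.log 3.08) :=
      mul_le_mul_of_nonneg_left (hη3.trans hlog) (by positivity)
    linarith
  rw [h2] at h1
  linarith

/-- the package for `A = 3` -/
theorem good3 {α₀ b₀ η : ℝ} (hc : Crit3 α₀ b₀ η) : Good 3 α₀ b₀ η := by
  have hpi := Real.pi_pos
  have hm0 : (0 : ℝ) < ((3 : ℕ) : ℝ) / 2 := by norm_num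
  refine ⟨hc.c, by norm_num, hc.hb, low3 hc, fun α hα0 hα1 => ?_, ?_⟩
  · have hvup : ∀ y : ℝ, 0 < y → y ≤ η →
        hp (((3 : ℕ) : ℝ) / 2) α (π / (((3 : ℕ) : ℝ) / 2)) y ≤
          hp (((3 : ℕ) : ℝ) / 2) α (π / (((3 : ℕ) : ℝ) / 2)) η := by
      intro y hy hyη
      rw [Pool.Agent.W52.BX.Bnd.hp_pim _ α y hm0, Pool.Agent.W52.BX.Bnd.hp_pim _ α η hm0]
      exact Pool.Agent.W305.VC.vup _ α y η hm0 hy hyη hα0
    refine ⟨?_, hvup, ?_⟩
    · intro x hx1 hx2
      rw [pi3] at hx2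
      rcases le_total 0 x with hx | hx
      · exact mx3 hc hα0 hα1 hx hx2
      · have h1 := Pool.Agent.W305.VC.neg (((3 : ℕ) : ℝ) / 2 / 2) α x η (by positivity) hc.c.hη hα0
          hα1 hx1 hx
        have h2 := mx3 hc hα0 hα1 le_rfl (show (0 : ℝ) ≤ 2 * π / 3 by positivity)
        rw [Pool.Agent.W52.BX.Bnd.hp_eq _ α 0 η] at h2
        rw [Pool.Agent.W52.BX.Bnd.hp_eq _ α x η]
        linarith
    · intro h' x hh0 hhη hx1 hx2
      have h1 := Pool.Agent.W305.VC.real (((3 : ℕ) : ℝ) / 2 / 2) α x (π / (((3 : ℕ) : ℝ) / 2)) h'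
        (by positivity) hh0 hα0 hα1 (by positivity) hx1 hx2
      have h2 := hvup h' hh0 hhη
      rw [Pool.Agent.W52.BX.Bnd.hp_eq _ α (π / (((3 : ℕ) : ℝ) / 2)) h'] at h2
      rw [Pool.Agent.W52.BX.Bnd.hp_eq _ α x h']
      nlinarith
  · obtain ⟨c, h1, h2⟩ := quad3 hc
    refine ⟨c, h1, fun x hx1 hx2 => ?_⟩
    rw [pi3] at hx2
    exact h2 x hx1 hx2

end Run7.h858.A3
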