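import Pool.Agent.Run7.h858.A3.Main
import Pool.Agent.Run7.h858.A3.Good3
import Pool.Agent.R807.HolderLim

set_option autoImplicit false

/-!
# All exponents
-/

namespace Run7.h858.A3

open Filter Finset Pool.Agent.W719.BX
open Pool.Agent.W715.VC hiding SS
open Pool.Agent.R807.HolderLim (GrowthLe growthLe_of_tendsto lob_six_pos)
open Pool.Agent.R807.AxSq (gX gY gZ gAngle gvol)
open scoped Real Topology

theorem exists_good3 : ∃ α b η : ℝ, Good 3 α b η := by
  obtain ⟨α, b, η, h1, h2⟩ := crit3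
  refine ⟨α, b, η, good3 ⟨?_, h2⟩⟩
  have e : (((3 : ℕ) : ℝ) / 2) = 3 / 2 := by norm_num
  rw [e]
  exact h1

/-- the volume for `A = 1` -/
theorem one_geo (n : ℕ) : IsGreatest {W : ℝ | ∃ w, bAngleN 1 n w ∧ bvolN 1 n w = W}
    (n * (8 * GapVol.lob (π / 6))) := by
  have hpi := Real.pi_pos
  have h3 : 3 * GapVol.lob (π / 3) = 2 * GapVol.lob (π / 6) := GapVol.lob_dup
  have hd : ∀ i : ℤ, ((1 : ℕ) : ℤ) ∣ i := fun i => by simp
  have hX : ∀ (w : ℤ → ℝ) (i : ℤ), bX 1 w i = (w (i - 1) + w i - w (i + 1)) / 2 := fun w i =>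
    if_pos (hd i)
  have hY : ∀ (w : ℤ → ℝ) (i : ℤ), bY 1 w i = (-w (i - 1) + w i + w (i + 1)) / 2 := fun w i =>
    if_pos (hd i)
  constructor
  · refine ⟨fun _ => 2 * π / 3, ⟨fun i => rfl, fun i => ?_⟩, ?_⟩
    · rw [hX, hY]
      unfold bZ
      refine ⟨?_, ?_, ?_⟩ <;> linarith
    · unfold bvolN
      have h1 : ∀ i ∈ range (2 * 1 * n), 2 * (GapVol.lob (bX 1 (fun _ => 2 * π / 3) i) +
          GapVol.lob (bY 1 (fun _ => 2 * π / 3) i) + GapVol.lob (bZ (fun _ => 2 * π / 3) i)) =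
          4 * GapVol.lob (π / 6) := by
        intro i _
        rw [hX, hY]
        unfold bZ
        have e1 : (2 * π / 3 + 2 * π / 3 - 2 * π / 3) / 2 = π / 3 := by ring
        have e2 : (-(2 * π / 3) + 2 * π / 3 + 2 * π / 3) / 2 = π / 3 := by ring
        have e3 : π - 2 * π / 3 = π / 3 := by ring
        rw [e1, e2, e3]
        linarith
      rw [sum_congr rfl h1, sum_const, card_range, nsmul_eq_mul]
      push_cast
      ring
  · rintro V ⟨w, ⟨hw, hpos⟩, rfl⟩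
    unfold bvolN
    have h1 : ∀ i ∈ range (2 * 1 * n), 2 * (GapVol.lob (bX 1 w i) +
          GapVol.lob (bY 1 w i) + GapVol.lob (bZ w i)) ≤ 4 * GapVol.lob (π / 6) := by
      intro i _
      obtain ⟨p1, p2, p3⟩ := hpos i
      have hs : bX 1 w i + bY 1 w i + bZ w i = π := by
        rw [hX, hY]
        unfold bZ
        ring
      have h2 := Pool.Agent.W120.VC.tet (π / 3) (π / 3) (π / 3) (bX 1 w i) (bY 1 w i) (bZ w i)
        (by linarith) (by linarith) (by linarith) (by ring) p1.le p2.le p3.le hs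
      have h4 : (bX 1 w i - π / 3) * Real.log (2 * Real.sin (π / 3)) +
          (bY 1 w i - π / 3) * Real.log (2 * Real.sin (π / 3)) +
          (bZ w i - π / 3) * Real.log (2 * Real.sin (π / 3)) = 0 := by
        have : bX 1 w i - π / 3 + (bY 1 w i - π / 3) + (bZ w i - π / 3) = 0 := by linarith
        rw [← add_mul, ← add_mul, this, zero_mul]
      linarith
    refine (sum_le_sum h1).trans (le_of_eq ?_)
    rw [sum_const, card_range, nsmul_eq_mul]
    push_cast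
    ring

/-- the volume for `A = 2` -/
theorem two_geo (n : ℕ) : IsGreatest {W : ℝ | ∃ w, bAngleN 2 n w ∧ bvolN 2 n w = W}
    (n * (16 * GapVol.lob (π / 4))) := by
  have hev : ∀ i : ℤ, ((2 : ℕ) : ℤ) ∣ i ↔ Even i := fun i => by
    rw [even_iff_two_dvd]
    norm_num
  have hX : ∀ (w : ℤ → ℝ) (i : ℤ), bX 2 w i = gX w i := fun w i => by
    unfold bX gX
    simp only [hev]
  have hY : ∀ (w : ℤ → ℝ) (i : ℤ), bY 2 w i = gY w i := fun w i => by
    unfold bY gY
    simp only [hev]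
  have hZ : ∀ (w : ℤ → ℝ) (i : ℤ), bZ w i = gZ w i := fun w i => rfl
  have h := Pool.Agent.R807.AxSq.greatest n
  have e : {W : ℝ | ∃ w, bAngleN 2 n w ∧ bvolN 2 n w = W} =
      {V : ℝ | ∃ w, gAngle n w ∧ gvol n w = V} := by
    ext W
    simp only [Set.mem_setOf_eq]
    refine exists_congr fun w => and_congr ?_ ?_
    · unfold bAngleN gAngle
      simp only [hX, hY, hZ]
      have e2 : (2 : ℤ) * ((2 : ℕ) : ℤ) * (n : ℤ) = 4 * n := by push_cast; ring
      rw [e2]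
    · unfold bvolN gvol
      simp only [hX, hY, hZ]
  rw [e]
  exact h

/-- all exponents -/
theorem all_A {A : ℕ} (hA : 1 ≤ A) : ∃ V : ℝ, 0 < V ∧
    (∀ n : ℕ, IsGreatest {W : ℝ | ∃ w, bAngleN A n w ∧ bvolN A n w = W} (n * V)) ∧
    Tendsto (fun N : ℕ => 2 * Real.pi / N *
      Real.log ‖(rep3 N (uA A ++ dual (uA A))).trace‖) atTop (𝓝 V) := by
  have h6 := lob_six_pos
  rcases (by omega : A = 1 ∨ A = 2 ∨ A = 3 ∨ 4 ≤ A) with rfl | rfl | rfl | h4
  · refine ⟨8 * GapVol.lob (π / 6), by linarith, one_geo, ?_⟩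
    refine (Pool.Agent.H112R4.VL.taskD Pool.Agent.H112R4.VL.taskB
      Pool.Agent.H8R3.VL.taskC).congr' ?_
    filter_upwards [eventually_gt_atTop 0] with N hN
    have h4 : uA 1 ++ dual (uA 1) = [(0, true), (1, false)] := rfl
    rw [h4, Pool.Agent.W715.VC.trace_base hN, Complex.norm_real, Real.norm_eq_abs, abs_of_nonneg]
    exact Finset.sum_nonneg (fun n _ => by positivity)
  · exact ⟨16 * GapVol.lob (π / 4), Pool.Agent.R807.AxSq.vol_pos, two_geo,
      Pool.Agent.R807.AxSq.trace_growth⟩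
  · obtain ⟨α, b, η, hG⟩ := exists_good3
    have hpos : 0 < 2 * hp (((3 : ℕ) : ℝ) / 2) α b η := by
      have h1 := hG.v
      linarith
    refine ⟨_, hpos, fun n => ?_, trace_growth' hG⟩
    have h1 := (Geo.hb_of_crit Pool.Agent.W214.BX.alg2 hG.hA hG.hb hG.c).greatestN
      Pool.Agent.W120.VC.tet n
    rwa [Geo.geo_value Pool.Agent.W214.BX.alg2 Pool.Agent.W389.BX.tel hG.hA hG.hb hG.c] at h1
  · have hA2 : (2 : ℝ) ≤ (A : ℝ) / 2 := by
      have : (4 : ℝ) ≤ A := by exact_mod_cast h4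
      linarith
    obtain ⟨α, b, η, hC⟩ := W349.BX.crit ((A : ℝ) / 2) hA2
    refine ⟨_, hp_pos h4 hC, fun n => ?_, trace_growth h4 hC⟩
    have h1 := (hb_of_crit Pool.Agent.W214.BX.alg2 h4 hC).greatestN Pool.Agent.W120.VC.tet n
    rwa [geo_value Pool.Agent.W214.BX.alg2 Pool.Agent.W389.BX.tel h4 hC] at h1

theorem all_pow {A : ℕ} (hA : 1 ≤ A) {V : ℝ} (hV : 0 < V)
    (h : Tendsto (fun N : ℕ => 2 * Real.pi / N *
      Real.log ‖(rep3 N (uA A ++ dual (uA A))).trace‖) atTop (𝓝 V)) {n : ℕ} (hn : 1 ≤ n) :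
    Tendsto (fun N : ℕ => 2 * Real.pi / N *
      Real.log ‖(rep3 N (wpow (uA A ++ dual (uA A)) n)).trace‖) atTop (𝓝 (n * V)) := by
  refine growth_pow (u := uA A) ?_ (by omega) hV h
  intro l hl
  unfold uA at hl
  rw [List.eq_of_mem_replicate hl]
  norm_num

end Run7.h858.A3
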