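import Pool.Agent.W349.BX.Crit

set_option autoImplicit false

/-! # Existence of the critical point for `A = 3` (adapted from `Pool.Agent.W349.BX.Crit`) -/

namespace Run7.h858.A3

open Real Set Filter Topology
open Pool.Agent.W709.VC Pool.Agent.W719.BX Pool.Agent.W704.VC.Crit W349.BX

lemma Ph_eb' {m b : ℝ} (hm : 1 / 2 < m) (hb0 : 0 < b) (hb : b ≤ π / 2) : 0 < Ph m b (eb b) := by
  have hs : 0 < sin b := sin_pos_of_pos_of_lt_pi hb0 (by linarith [pi_pos])
  have hc : 0 ≤ cos b := cos_nonneg_of_mem_Icc ⟨by linarith [pi_pos], hb⟩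
  have he := eb_pos hb0 hb
  have h1 : th (eb b) < th (2 * m * eb b) := th_strictMono (by nlinarith)
  have hC := cosh_pos (eb b)
  have hCsq : cosh (eb b) ^ 2 = 2 - cos b ^ 2 := by
    have h2 := cosh_sq (eb b)
    rw [sinh_eb] at h2
    have h3 := Real.sin_sq_add_cos_sq b
    linarith
  have hG : G b (eb b) = th (eb b) := by
    unfold G th
    rw [abs_of_nonneg hc, sinh_eb]
    have e1 : 4 - D b (eb b) ^ 2 = (cosh (eb b) + cos b) ^ 2 := by
      unfold D
      nlinarith
    rw [e1, Real.sqrt_sq (by positivity)]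
    have e2 : 2 + cos b * D b (eb b) = cosh (eb b) * (cosh (eb b) + cos b) := by
      unfold D
      nlinarith
    rw [e2]
    have h4 : cosh (eb b) + cos b ≠ 0 := by positivity
    field_simp
  unfold Ph
  rw [hG]
  linarith

lemma exists_eta2' {m b : ℝ} (hm : 1 / 2 < m) (hb0 : 0 < b) (hb : b ≤ π / 2) :
    ∃ η, 0 < η ∧ η < eb b ∧ Ph m b η = 0 := by
  have hcont : ContinuousOn (fun η => Ph m b η) (Icc 0 (eb b)) :=
    ((continuous_Ph m).comp (Continuous.prodMk_right b)).continuousOn
  have h := intermediate_value_Ioo (eb_pos hb0 hb).le hcont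
  have hmem : (0:ℝ) ∈ Ioo (Ph m b 0) (Ph m b (eb b)) := ⟨Ph_zero hb0 hb, Ph_eb' hm hb0 hb⟩
  obtain ⟨η, ⟨h1, h2⟩, h3⟩ := h hmem
  exact ⟨η, h1, h2, h3⟩

/-- the equation for `cosh η` at `b = π / 2` -/
lemma quint {η : ℝ} (hη : 0 < η) (hC : cosh η ^ 2 < 4) (h : Ph (3 / 4) (π / 2) η = 0) :
    4 * cosh η ^ 5 - 3 * cosh η ^ 3 + cosh η ^ 2 - 8 = 0 := by
  have hG : th (3 / 2 * η) = √(4 - cosh η ^ 2) / 2 := by
    unfold Ph G D at h
    rw [cos_pi_div_two, sin_pi_div_two, abs_zero, sub_zero, zero_mul, add_zero, one_mul] at h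
    have e : 2 * (3 / 4) * η = 3 / 2 * η := by ring
    rw [e] at h
    linarith
  have h1 : th (3 / 2 * η) ^ 2 = (4 - cosh η ^ 2) / 4 := by
    rw [hG, div_pow, Real.sq_sqrt (by linarith)]
    norm_num
  have hch := cosh_pos (3 / 2 * η)
  have h2 : sinh (3 / 2 * η) ^ 2 * 4 = (4 - cosh η ^ 2) * cosh (3 / 2 * η) ^ 2 := by
    unfold th at h1
    rw [div_pow, div_eq_div_iff (by positivity) (by norm_num)] at h1
    exact h1
  have h3 := cosh_sq (3 / 2 * η)
  have h4 : cosh (3 * η) = 2 * cosh (3 / 2 * η) ^ 2 - 1 := by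
    have h5 := cosh_two_mul (3 / 2 * η)
    rw [show 2 * (3 / 2 * η) = 3 * η by ring] at h5
    linarith
  have h6 : cosh (3 * η) = 4 * cosh η ^ 3 - 3 * cosh η := cosh_three_mul η
  have h7 : cosh (3 / 2 * η) ^ 2 = (4 * cosh η ^ 3 - 3 * cosh η + 1) / 2 := by linarith
  have h8 : sinh (3 / 2 * η) ^ 2 = (4 * cosh η ^ 3 - 3 * cosh η - 1) / 2 := by linarith
  rw [h7, h8] at h2
  linear_combination 2 * h2

/-- the comparison at `b = π / 2` -/
lemma hi_pos {η α : ℝ} (hη : 0 < η) (hα0 : 0 < α) (hα : α < π / 2)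
    (hlt : cosh η * cos α < sinh η * sin α) :
    π / 2 < T η (π / 2 + α) - T η (π / 2 - α) := by
  have hpi := pi_pos
  set x := (π / 2 - α) / 2 with hx
  have hx0 : 0 < x := by rw [hx]; linarith
  have hx1 : x < π / 4 := by rw [hx]; linarith
  have hsx : 0 < sin x := sin_pos_of_pos_of_lt_pi hx0 (by linarith)
  have hcx : 0 < cos x := cos_pos_of_mem_Ioo ⟨by linarith, by linarith⟩
  have e1 : (π / 2 + α) / 2 = π / 2 - x := by rw [hx]; ring
  have hc := cosh_pos (η / 2)
  have hs : 0 < sinh (η / 2) := sinh_pos_iff.2 (by linarith)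
  have hlt1 : sinh (η / 2) < cosh (η / 2) := sinh_lt_cosh _
  unfold T
  rw [e1, sin_pi_div_two_sub, cos_pi_div_two_sub, ← hx]
  unfold th
  set t := sinh (η / 2) / cosh (η / 2) with ht
  have ht0 : 0 < t := div_pos hs hc
  have ht1 : t < 1 := by rw [ht, div_lt_one hc]; exact hlt1
  have hsc : sin x < cos x := by
    rw [← sin_pi_div_two_sub]
    exact sin_lt_sin_of_lt_of_le_pi_div_two (by linarith) (by linarith) (by linarith)
  set Y := t * (sin x / cos x) with hY
  have hY0 : 0 < Y := by positivity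
  have hY1 : Y < 1 := by
    have h1 : sin x / cos x < 1 := by rw [div_lt_one hcx]; exact hsc
    have h2 : 0 < sin x / cos x := by positivity
    nlinarith
  have hadd := arctan_add (x := 1) (y := Y) (by linarith)
  rw [arctan_one, one_mul] at hadd
  have hXY : (1 + Y) / (1 - Y) < t * (cos x / sin x) := by
    rw [div_lt_iff₀ (by linarith)]
    have h1 : cosh η = cosh (η / 2) ^ 2 + sinh (η / 2) ^ 2 := by
      have := cosh_two_mul (η / 2)
      rwa [show 2 * (η / 2) = η by ring] at this
    have h2 : sinh η = 2 * sinh (η / 2) * cosh (η / 2) := by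
      have := sinh_two_mul (η / 2)
      rwa [show 2 * (η / 2) = η by ring] at this
    have h3 : cos α = 2 * sin x * cos x := by
      rw [← sin_two_mul, hx, show 2 * ((π / 2 - α) / 2) = π / 2 - α by ring, sin_pi_div_two_sub]
    have h4 : sin α = cos x ^ 2 - sin x ^ 2 := by
      have h5 := cos_two_mul x
      rw [hx, show 2 * ((π / 2 - α) / 2) = π / 2 - α by ring, cos_pi_div_two_sub, ← hx] at h5
      have h6 := Real.sin_sq_add_cos_sq x
      linarith
    rw [h1, h2, h3, h4] at hlt
    rw [hY, ht]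
    have h5 : sinh (η / 2) / cosh (η / 2) * (cos x / sin x) *
        (1 - sinh (η / 2) / cosh (η / 2) * (sin x / cos x)) -
        (1 + sinh (η / 2) / cosh (η / 2) * (sin x / cos x)) =
        (2 * sinh (η / 2) * cosh (η / 2) * (cos x ^ 2 - sin x ^ 2) -
          (cosh (η / 2) ^ 2 + sinh (η / 2) ^ 2) * (2 * sin x * cos x)) /
          (2 * cosh (η / 2) ^ 2 * sin x * cos x) := by
      field_simp
      ring
    have h6 : 0 < (2 * sinh (η / 2) * cosh (η / 2) * (cos x ^ 2 - sin x ^ 2) -
          (cosh (η / 2) ^ 2 + sinh (η / 2) ^ 2) * (2 * sin x * cos x)) /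
          (2 * cosh (η / 2) ^ 2 * sin x * cos x) := by
      apply div_pos (by linarith) (by positivity)
    linarith
  have := arctan_strictMono hXY
  rw [← hadd] at this
  linarith

/-- **existence of the critical point, `A = 3`** -/
theorem crit3 : ∃ α b η : ℝ, Crit2 (3 / 2) α b η ∧ b < π / 2 := by
  set m : ℝ := 3 / 2 with hm
  have hmpos : 0 < m := by rw [hm]; norm_num
  set μ := m / 2 with hμ
  have hμe : μ = 3 / 4 := by rw [hμ, hm]; norm_num
  have hμ1 : 1 / 2 < μ := by rw [hμe]; norm_num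
  have hpi := pi_pos
  set lo := π / 4 with hlo
  set hi := π / 2 with hhi
  have hlo0 : 0 < lo := by positivity
  have hlohi : lo ≤ hi := by rw [hlo, hhi]; linarith
  have hex : ∀ b : ℝ, ∃ η, b ∈ Icc lo hi → 0 < η ∧ η < eb b ∧ Ph μ b η = 0 := by
    intro b
    by_cases hb : b ∈ Icc lo hi
    · obtain ⟨η, h⟩ := exists_eta2' (b := b) hμ1 (lt_of_lt_of_le hlo0 hb.1) hb.2
      exact ⟨η, fun _ => h⟩
    · exact ⟨0, fun h => absurd h hb⟩
  choose e he using hex
  have hecont := e_cont2 (m := μ) (by rw [hμe]; norm_num) hlo0 le_rfl e he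
  have hb0 : ∀ b ∈ Icc lo hi, 0 < b := fun b hb => lt_of_lt_of_le hlo0 hb.1
  have hb2 : ∀ b ∈ Icc lo hi, b ≤ π / 2 := fun b hb => hb.2
  have hch : ∀ b ∈ Icc lo hi, cosh (e b) < √2 := fun b hb =>
    cosh_lt2 (he b hb).1 (he b hb).2.1
  have hall := fun b hb => crit12 (m := μ) (hb0 b hb) (hb2 b hb) (he b hb).1 (hch b hb)
    (he b hb).2.2
  have hα2 : ∀ b ∈ Icc lo hi, arccos (cc b (e b)) < π / 2 := by
    intro b hb
    exact arccos_lt_pi_div_two.2 (cc_pos (hb0 b hb) (hb2 b hb) (he b hb).1 (he b hb).2.1)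
  have hcccont : ContinuousOn (fun b => cc b (e b)) (Icc lo hi) := by
    unfold cc
    apply ContinuousOn.div
    · exact (continuousOn_const.sub ((continuous_cosh.comp_continuousOn hecont).pow 2)).sub
        (continuous_cos.continuousOn.pow 2)
    · exact continuousOn_const.mul (continuousOn_const.add
        ((continuous_cosh.comp_continuousOn hecont).mul continuous_cos.continuousOn))
    · intro b hb
      have hc : 0 ≤ cos b := cos_nonneg_of_mem_Icc
        ⟨by linarith [pi_pos, hb0 b hb], hb2 b hb⟩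
      have : 0 < 2 * (1 + cosh (e b) * cos b) := by
        have := mul_nonneg (cosh_pos (e b)).le hc
        linarith
      exact this.ne'
  have hαcont : ContinuousOn (fun b => arccos (cc b (e b))) (Icc lo hi) :=
    continuous_arccos.comp_continuousOn hcccont
  let H : ℝ → ℝ := fun b => 2 * (m * b - π) + (T (e b) (b + arccos (cc b (e b))) -
    T (e b) (b - arccos (cc b (e b))))
  have hrange : ∀ b ∈ Icc lo hi, -π < b - arccos (cc b (e b)) ∧
      b - arccos (cc b (e b)) < π ∧ -π < b + arccos (cc b (e b)) ∧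
      b + arccos (cc b (e b)) < π := by
    intro b hb
    obtain ⟨h1, h2, -, -⟩ := hall b hb
    have := hb0 b hb
    refine ⟨by linarith, by linarith, by linarith [pi_pos], by linarith⟩
  have hHcont : ContinuousOn H (Icc lo hi) := by
    apply ContinuousOn.add
    · exact (continuous_const.mul ((continuous_const.mul continuous_id).sub
        continuous_const)).continuousOn
    · apply ContinuousOn.sub
      · intro b hb
        have h1 := T_cont_at (η := e b) (hrange b hb).2.2.1 (hrange b hb).2.2.2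
        exact ContinuousAt.comp_continuousWithinAt (f := fun b => (e b, b + arccos (cc b (e b))))
          h1 ((hecont b hb).prodMk (continuousWithinAt_id.add (hαcont b hb)))
      · intro b hb
        have h1 := T_cont_at (η := e b) (hrange b hb).1 (hrange b hb).2.1
        exact ContinuousAt.comp_continuousWithinAt (f := fun b => (e b, b - arccos (cc b (e b))))
          h1 ((hecont b hb).prodMk (continuousWithinAt_id.sub (hαcont b hb)))
  have hlo' : lo ∈ Icc lo hi := ⟨le_rfl, hlohi⟩
  have hhi' : hi ∈ Icc lo hi := ⟨hlohi, le_rfl⟩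
  have hHlo : H lo < 0 := by
    have hα0 := (hall lo hlo').1
    have hα := hα2 lo hlo'
    have h1 : T (e lo) (lo + arccos (cc lo (e lo))) < π / 2 := by
      apply T_lt (he lo hlo').1 (by linarith) (hrange lo hlo').2.2.2
      set τ := lo + arccos (cc lo (e lo)) with hτ
      have hτ1 : τ < 3 * π / 4 := by rw [hτ, hlo]; linarith
      have hcosτ : -(√2 / 2) < cos τ := by
        have h3 : cos (3 * π / 4) < cos τ :=
          cos_lt_cos_of_nonneg_of_le_pi (by linarith) (by linarith [pi_pos]) hτ1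
        have h4 : cos (3 * π / 4) = -(√2 / 2) := by
          rw [show 3 * π / 4 = π - π / 4 by ring, cos_pi_sub, cos_pi_div_four]
        rw [h4] at h3
        exact h3
      have hC := hch lo hlo'
      have hC0 := cosh_pos (e lo)
      have hs2 : √2 ^ 2 = (2:ℝ) := Real.sq_sqrt (by norm_num)
      have hs0 : 0 < √2 := by positivity
      by_cases hneg : 0 ≤ cos τ
      · have := mul_nonneg hC0.le hneg
        linarith
      · push Not at hneg
        nlinarith
    have h2 : -(π / 2) < T (e lo) (lo - arccos (cc lo (e lo))) :=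
      T_gt (he lo hlo').1 (by linarith) (hrange lo hlo').2.1
    change 2 * (m * lo - π) + (T (e lo) (lo + arccos (cc lo (e lo))) -
      T (e lo) (lo - arccos (cc lo (e lo)))) < 0
    have e5 : m * lo = 3 * π / 8 := by rw [hm, hlo]; ring
    rw [e5]
    linarith
  have hint : ∀ b ∈ Icc lo hi, ∫ τ in (b - arccos (cc b (e b)))..(b + arccos (cc b (e b))),
      sinh (e b) / (cosh (e b) + cos τ) = T (e b) (b + arccos (cc b (e b))) -
        T (e b) (b - arccos (cc b (e b))) := by
    intro b hb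
    have h1 := (hall b hb).1
    exact int_T (hrange b hb).1 (by linarith) (hrange b hb).2.2.2 (he b hb).1
  have hHhi : 0 < H hi := by
    have e5 : m * hi = 3 * π / 4 := by rw [hm, hhi]; ring
    change 0 < 2 * (m * hi - π) + (T (e hi) (hi + arccos (cc hi (e hi))) -
      T (e hi) (hi - arccos (cc hi (e hi))))
    rw [e5]
    have hη := (he hi hhi').1
    have hC := hch hi hhi'
    have hC1 : 1 < cosh (e hi) := one_lt_cosh.2 hη.ne'
    have hs2 : √2 ^ 2 = (2:ℝ) := Real.sq_sqrt (by norm_num)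
    have hC2 : cosh (e hi) ^ 2 < 2 := by
      have := pow_lt_pow_left₀ hC (by linarith) two_ne_zero
      linarith
    have hPh := (he hi hhi').2.2
    rw [hμe, hhi] at hPh
    have hq := quint hη (by linarith) hPh
    have hcc : cc hi (e hi) = (2 - cosh (e hi) ^ 2) / 2 := by
      unfold cc
      rw [hhi, cos_pi_div_two]
      ring
    have hcos : cos (arccos (cc hi (e hi))) = (2 - cosh (e hi) ^ 2) / 2 := by
      rw [cos_arccos (by rw [hcc]; linarith) (by rw [hcc]; nlinarith), hcc]
    have hsin : sin (arccos (cc hi (e hi))) ^ 2 = 1 - ((2 - cosh (e hi) ^ 2) / 2) ^ 2 := by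
      rw [← hcos]
      have := Real.sin_sq_add_cos_sq (arccos (cc hi (e hi)))
      linarith
    have hα0 := (hall hi hhi').1
    have hα := hα2 hi hhi'
    have hsα : 0 < sin (arccos (cc hi (e hi))) := sin_pos_of_pos_of_lt_pi hα0 (by linarith)
    have hsh : 0 < sinh (e hi) := sinh_pos_iff.2 hη
    have hC3 : 1.15 < cosh (e hi) := by
      by_contra hcon
      push Not at hcon
      set C := cosh (e hi) with hCd
      have f1 : 4 * C ^ 5 - 3 * C ^ 3 + C ^ 2 - 8 =
          (C - 1.15) * (4 * C ^ 4 + 4.6 * C ^ 3 + 2.29 * C ^ 2 + 3.6335 * C + 4.178525) +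
            (1.15 * 4.178525 - 8) := by ring
      have f2 : (C - 1.15) * (4 * C ^ 4 + 4.6 * C ^ 3 + 2.29 * C ^ 2 + 3.6335 * C + 4.178525) ≤ 0 :=
        mul_nonpos_of_nonpos_of_nonneg (by linarith) (by positivity)
      rw [f1] at hq
      norm_num at hq f2
      linarith
    have key : cosh (e hi) * cos (arccos (cc hi (e hi))) <
        sinh (e hi) * sin (arccos (cc hi (e hi))) := by
      apply lt_of_pow_lt_pow_left₀ 2 (by positivity)
      rw [mul_pow, mul_pow, hsin, hcos]
      have h3 := cosh_sq (e hi)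
      have h4 : sinh (e hi) ^ 2 = cosh (e hi) ^ 2 - 1 := by linarith
      rw [h4]
      set v := cosh (e hi) ^ 2 with hv
      have hv1 : 1.3225 < v := by
        have := pow_lt_pow_left₀ hC3 (by norm_num) two_ne_zero
        norm_num at this
        rw [hv]
        linarith
      nlinarith [mul_pos (sub_pos.2 hv1) (sub_pos.2 hC2)]
    have := hi_pos hη hα0 hα key
    rw [hhi] at this ⊢
    linarith
  obtain ⟨b, ⟨hb1, hb2'⟩, hb3⟩ := intermediate_value_Ioo hlohi hHcont ⟨hHlo, hHhi⟩
  have hbI : b ∈ Icc lo hi := ⟨hb1.le, hb2'.le⟩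
  obtain ⟨h1, h2, h3, h4⟩ := hall b hbI
  refine ⟨arccos (cc b (e b)), b, e b, ?_, hb2'⟩
  refine ⟨h1, hα2 b hbI, hb0 b hbI, (he b hbI).1, ?_, ?_, ?_, h4, ?_⟩
  · have hC := hch b hbI
    have hC0 := cosh_pos (e b)
    have hs2 : √2 ^ 2 = (2:ℝ) := Real.sq_sqrt (by norm_num)
    nlinarith
  · have : m * b < m * hi := mul_lt_mul_of_pos_left hb2' hmpos
    rw [hhi, hm] at this
    rw [hm]
    linarith
  · have : 4 * μ * e b = 2 * m * e b := by rw [hμ]; ring
    rw [← this]
    exact h3
  · rw [hint b hbI]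
    exact hb3

end Run7.h858.A3
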