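import Pool.Agent.W719.BX.Defs

set_option autoImplicit false

/-! # The facts on the critical point which are used in the estimates -/

namespace Run7.h858.A3

open Pool.Agent.W709.VC Pool.Agent.W719.BX
open scoped Real

/-- the facts on the critical point which are used in the estimates -/
structure Good (A : ℕ) (α₀ b₀ η : ℝ) : Prop where
  c : Crit2 ((A : ℝ) / 2) α₀ b₀ η
  hA : 2 ≤ A
  hb : b₀ < π / 2
  v : 16 * GapVol.lob (π / 6) ≤ 2 * hp ((A : ℝ) / 2) α₀ b₀ η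
  bd : ∀ α : ℝ, 0 ≤ α → α ≤ π →
    (∀ x : ℝ, -π ≤ x → x ≤ π / ((A : ℝ) / 2) →
      hp ((A : ℝ) / 2) α x η ≤ hp ((A : ℝ) / 2) α₀ b₀ η) ∧
    (∀ y : ℝ, 0 < y → y ≤ η →
      hp ((A : ℝ) / 2) α (π / ((A : ℝ) / 2)) y ≤ hp ((A : ℝ) / 2) α (π / ((A : ℝ) / 2)) η) ∧
    (∀ h x : ℝ, 0 < h → h ≤ η → π / ((A : ℝ) / 2) ≤ x → x ≤ π →
      hp ((A : ℝ) / 2) α x h ≤ hp ((A : ℝ) / 2) α (π / ((A : ℝ) / 2)) η +
        2 * π * ((A : ℝ) / 2) * h)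
  q : ∃ c : ℝ, 0 < c ∧ ∀ x : ℝ, -π ≤ x → x ≤ π / ((A : ℝ) / 2) →
    hp ((A : ℝ) / 2) α₀ x η ≤ hp ((A : ℝ) / 2) α₀ b₀ η - c * (x - b₀) ^ 2

end Run7.h858.A3
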