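import Pool.Agent.Run7.h858.A3.Lap
import Pool.Agent.W709.VC.Low2
import Pool.Agent.W440.VC.Rs
import Pool.Agent.W973.VcDc

/-! # Lower bound for one entry (adapted from `Pool.Agent.W85.BX.Low`) -/

set_option autoImplicit false
set_option maxHeartbeats 4000000

namespace Run7.h858.A3.Low

open Filter Finset EvenVol Pool.Agent.H112R4.VL Pool.Agent.W709.VC Pool.Agent.W719.BX
open scoped Real Topology

lemma hp_pot (m α x e : ℝ) : hp m α x e = pot (m / 2) α x e + 2 * π * e := by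
  unfold hp pot
  ring

/-- continuity of the potential in `α`, uniformly -/
lemma hp_unif {h H : ℝ} (hh : 0 < h) (m α₀ : ℝ) {ρ : ℝ} (hρ : 0 < ρ) :
    ∃ δ : ℝ, 0 < δ ∧ ∀ α, |α - α₀| ≤ δ → ∀ b y : ℝ, h ≤ y → y ≤ H →
      |hp m α b y - hp m α₀ b y| ≤ ρ := by
  obtain ⟨δ, h1, h2⟩ := pot_unif (H := H) hh (m / 2) α₀ hρ
  refine ⟨δ, h1, fun α hα b y hy hy' => ?_⟩
  have := h2 α hα b y hy hy'
  rw [hp_pot, hp_pot]
  have e : pot (m / 2) α b y + 2 * π * y - (pot (m / 2) α₀ b y + 2 * π * y) =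
    pot (m / 2) α b y - pot (m / 2) α₀ b y := by ring
  rw [e]
  exact this

/-- difference of the potential at two points of the horizontal line -/
lemma hp_diff_lip {h H : ℝ} (hh : 0 < h) (m α₀ : ℝ) : ∃ M : ℝ, 0 ≤ M ∧
    ∀ α b b' y : ℝ, h ≤ y → y ≤ H →
      hp m α b y - hp m α b' y ≤ hp m α₀ b y - hp m α₀ b' y + 4 * M * |α - α₀| := by
  obtain ⟨M, h1, h2⟩ := pot_diff_lip (H := H) hh (m / 2) α₀
  refine ⟨M, h1, fun α b b' y hy hy' => ?_⟩
  have := h2 α b b' y hy hy'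
  rw [hp_pot, hp_pot, hp_pot, hp_pot]
  linarith

lemma Fi2_cont (A : ℕ) {N k d : ℕ} (hN : 0 < N) {η : ℝ} (hη : 0 < η) :
    Continuous (fun x : ℝ => Fi2 A N k d (x + η * Complex.I)) := by
  unfold Fi2
  apply (Fint_contAt A hN hη).mul
  unfold RR
  fun_prop

lemma Fi2_ne (A : ℕ) {N k d : ℕ} (hN : 0 < N) {b η : ℝ} (hη : 0 < η) :
    Fi2 A N k d (-b + η * Complex.I) ≠ 0 := by
  unfold Fi2
  apply mul_ne_zero (Fint_ne A hN hη)
  apply RR_ne
  simp
  exact hη.ne'

/-- pointwise estimate with bounded error, `k = d` -/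
lemma pbf2 (A : ℕ) {h H : ℝ} (hh : 0 < h) :
    ∃ C : ℝ, 0 ≤ C ∧ ∀ N d : ℕ, 0 < N → d ≤ N → ∀ b η : ℝ, h ≤ η → η ≤ H →
      |Real.log ‖Fi2 A N d d (-b + η * Complex.I)‖ - N / (4 * π) *
        (2 * (hp ((A : ℝ) / 2) (2 * π * d / N) b η - 8 * GapVol.lob (2 * π * d / N / 2)))| ≤ C := by
  obtain ⟨C1, hC1, h1⟩ := pbf Pool.Agent.W440.VC.rs A (h := h) (H := H) hh
  obtain ⟨C2, h2⟩ := Pool.Agent.W440.VC.rs h hh
  refine ⟨C1 + |C2|, by positivity, ?_⟩
  intro N d hN hd b η g1 g2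
  have hη : 0 < η := lt_of_lt_of_le hh g1
  have k1 := h1 N d hN hd b η g1 g2
  have k2 := h2 N d hN hd b η g1
  have hRRne : RR N d (-b + η * Complex.I) ≠ 0 := by
    apply RR_ne
    simp
    exact hη.ne'
  have hFne := Fint_ne A (N := N) (d := d) hN (b := b) hη
  have hlog : Real.log ‖Fi2 A N d d (-b + η * Complex.I)‖ =
      Real.log ‖Fint A N d (-b + η * Complex.I)‖ + Real.log ‖RR N d (-b + η * Complex.I)‖ := by
    unfold Fi2
    rw [norm_mul, Real.log_mul (norm_ne_zero_iff.2 hFne) (norm_ne_zero_iff.2 hRRne)]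
  have hid : Real.log ‖Fi2 A N d d (-b + η * Complex.I)‖ - N / (4 * π) *
        (2 * (hp ((A : ℝ) / 2) (2 * π * d / N) b η - 8 * GapVol.lob (2 * π * d / N / 2))) =
      (Real.log ‖Fint A N d (-b + η * Complex.I)‖ - N / (4 * π) * (4 * ((A : ℝ) / 2 * b - π) * η +
        (Lf η (b + 2 * π * d / N) - Lf η (b - 2 * π * d / N)))) +
      (Real.log ‖RR N d (-b + η * Complex.I)‖ -
        N / (4 * π) * (Lf η (b + 2 * π * d / N) - Lf η (b - 2 * π * d / N))) := by
    rw [hlog]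
    unfold hp
    ring
  rw [hid]
  refine (abs_add_le _ _).trans ?_
  have := le_abs_self C2
  linarith

lemma dN_le {α : ℝ} (hα : 0 ≤ α) (hα' : α < π / 2) {N : ℕ} : 4 * dN α N ≤ N := by
  have hp := Real.pi_pos
  have hN' : (0 : ℝ) ≤ N := Nat.cast_nonneg N
  have h0 : 0 ≤ α * N / (2 * π) := by positivity
  have h1 := Nat.floor_le h0
  have h2 : α * N / (2 * π) ≤ N / 4 := by
    rw [div_le_div_iff₀ (by positivity) (by norm_num)]
    nlinarith
  have h3 : 4 * (dN α N : ℝ) ≤ N := by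
    unfold dN
    linarith
  exact_mod_cast h3

/-- the integral along the horizontal line -/
lemma horiz {A : ℕ}
    {α₀ b₀ η : ℝ} (hG : Good A α₀ b₀ η) {b₁ : ℝ} (hb₁ : b₁ = π / ((A : ℝ) / 2))
    (hb1 : b₀ < b₁) :
    ∃ δ : ℝ, 0 < δ ∧ ∀ᶠ N : ℕ in atTop,
      ‖Fi2 A N (dN α₀ N) (dN α₀ N) (-b₀ + η * Complex.I)‖ * (δ / Real.sqrt N) ≤
        ‖∫ x in (-b₁)..π, Fi2 A N (dN α₀ N) (dN α₀ N) (x + η * Complex.I)‖ := by
  have hp' := Real.pi_pos
  have hC := hG.c
  have hA' : (2 : ℝ) ≤ A := by exact_mod_cast hG.hA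
  have hη := hC.hη
  obtain ⟨c, hc, hquad⟩ := hG.q
  rw [← hb₁] at hquad
  obtain ⟨cL, hcL, hlim⟩ := Run7.h858.A3.Lap.lap A α₀ b₀ η (dN α₀) hG.hb hC (dN_close hC.hα.le)
  obtain ⟨C, hC0, hpbf⟩ := pbf2 A (h := η) (H := η) hη
  obtain ⟨M, hM0, hM⟩ := hp_diff_lip (H := η) hη ((A : ℝ) / 2) α₀
  have hαπ : α₀ < π := by linarith [hC.hα2]
  set KN : ℕ → ℝ → ℂ := fun N x => Fi2 A N (dN α₀ N) (dN α₀ N) (x + η * Complex.I) /
    Fi2 A N (dN α₀ N) (dN α₀ N) (-b₀ + η * Complex.I) with hKN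
  have hcont : ∀ᶠ N in atTop, Continuous (KN N) := by
    filter_upwards [eventually_gt_atTop 0] with N hN0
    exact (Fi2_cont A hN0 hη).div_const _
  have hbound : ∀ᶠ N : ℕ in atTop, ∀ x : ℝ, -b₁ ≤ x → x ≤ π →
      ‖KN N x‖ ≤ Real.exp (2 * C + 4 * M) * Real.exp (-(c / (2 * π)) * N * (x - -b₀) ^ 2) := by
    filter_upwards [eventually_gt_atTop 0] with N hN0 x hx hx'
    have hNp : (0 : ℝ) < N := by exact_mod_cast hN0
    have hd := dN_lt hC.hα.le hαπ hN0
    have hne := Fi2_ne A (N := N) (k := dN α₀ N) (d := dN α₀ N) hN0 (b := b₀) hη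
    have hne2 := Fi2_ne A (N := N) (k := dN α₀ N) (d := dN α₀ N) hN0 (b := -x) hη
    have hxx : (-((-x : ℝ) : ℂ) + η * Complex.I) = (x : ℂ) + η * Complex.I := by push_cast; ring
    have q1 := hpbf N (dN α₀ N) hN0 hd.le b₀ η le_rfl le_rfl
    have q2 := hpbf N (dN α₀ N) hN0 hd.le (-x) η le_rfl le_rfl
    have q3 := hquad (-x) (by linarith) (by linarith)
    set α : ℝ := 2 * π * (dN α₀ N) / N with hα
    have q4 := hM α (-x) b₀ η le_rfl le_rfl
    have hdist : |α - α₀| ≤ 2 * π / N := by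
      have := dN_close hC.hα.le N
      have e : α - α₀ = (2 * π * (dN α₀ N) - α₀ * N) / N := by
        rw [hα]
        field_simp
      rw [e, abs_div, abs_of_pos hNp]
      exact div_le_div_of_nonneg_right this hNp.le
    rw [hKN]
    show ‖Fi2 A N (dN α₀ N) (dN α₀ N) (x + η * Complex.I) /
      Fi2 A N (dN α₀ N) (dN α₀ N) (-b₀ + η * Complex.I)‖ ≤ _
    rw [norm_div]
    rw [hxx] at hne2 q2
    have hpos : 0 < ‖Fi2 A N (dN α₀ N) (dN α₀ N) (-b₀ + η * Complex.I)‖ := norm_pos_iff.2 hne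
    have hpos2 : 0 < ‖Fi2 A N (dN α₀ N) (dN α₀ N) (x + η * Complex.I)‖ := norm_pos_iff.2 hne2
    rw [div_le_iff₀ hpos, ← Real.exp_add, ← Real.log_le_log_iff hpos2 (by positivity),
      Real.log_mul (Real.exp_ne_zero _) hpos.ne', Real.log_exp]
    rw [abs_le] at q1 q2
    have q5 : N / (4 * π) * (2 * (hp ((A : ℝ) / 2) α (-x) η - hp ((A : ℝ) / 2) α b₀ η)) ≤
        N / (4 * π) * (2 * (-c * (-x - b₀) ^ 2 + 4 * M * (2 * π / N))) := by
      apply mul_le_mul_of_nonneg_left _ (by positivity)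
      have : 4 * M * |α - α₀| ≤ 4 * M * (2 * π / N) :=
        mul_le_mul_of_nonneg_left hdist (by positivity)
      linarith
    have q6 : N / (4 * π) * (2 * (-c * (-x - b₀) ^ 2 + 4 * M * (2 * π / N))) =
        -(c / (2 * π)) * N * (x - -b₀) ^ 2 + 4 * M := by
      field_simp
      ring
    have q7 : N / (4 * π) * (2 * (hp ((A : ℝ) / 2) α (-x) η - hp ((A : ℝ) / 2) α b₀ η)) =
        N / (4 * π) * (2 * (hp ((A : ℝ) / 2) α (-x) η - 8 * GapVol.lob (α / 2))) -
        N / (4 * π) * (2 * (hp ((A : ℝ) / 2) α b₀ η - 8 * GapVol.lob (α / 2))) := by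
      ring
    rw [q6, q7] at q5
    linarith [q1.1, q1.2, q2.1, q2.2]
  have hpt : ∀ s : ℝ, Tendsto (fun N : ℕ => KN N (-b₀ + s / Real.sqrt N)) atTop
      (𝓝 (Complex.exp (-cL * s ^ 2))) := by
    intro s
    have := hlim s
    refine this.congr (fun N => ?_)
    show _ = Fi2 A N (dN α₀ N) (dN α₀ N) (((-b₀ + s / Real.sqrt N : ℝ) : ℂ) + η * Complex.I) /
      Fi2 A N (dN α₀ N) (dN α₀ N) (-b₀ + η * Complex.I)
    push_cast
    rfl
  obtain ⟨δ, hδ, hev⟩ := Pool.Agent.W973.VcDc.dc KN cL (-b₀) (-b₁) π (Real.exp (2 * C + 4 * M))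
    (c / (2 * π)) hcL
    (by linarith) (by linarith [hC.hb]) (by positivity) hcont hbound hpt
  refine ⟨δ, hδ, ?_⟩
  filter_upwards [hev, eventually_gt_atTop 0] with N hN hN0
  have hne := Fi2_ne A (N := N) (k := dN α₀ N) (d := dN α₀ N) hN0 (b := b₀) hη
  have hN' : δ / Real.sqrt N ≤ ‖∫ x in (-b₁)..π, Fi2 A N (dN α₀ N) (dN α₀ N) (x + η * Complex.I) /
    Fi2 A N (dN α₀ N) (dN α₀ N) (-b₀ + η * Complex.I)‖ := hN
  rw [intervalIntegral.integral_div, norm_div] at hN'
  have hpos : 0 < ‖Fi2 A N (dN α₀ N) (dN α₀ N) (-b₀ + η * Complex.I)‖ := norm_pos_iff.2 hne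
  rw [le_div_iff₀ hpos] at hN'
  linarith

/-- the entry as a path integral -/
lemma TT_path (hP : S_PATH2) (A : ℕ) {N n d k : ℕ} (hN : 2 ≤ N) (hnd : n + d + 1 = N)
    {h η b : ℝ} (hh : 0 < h) (hη : h ≤ η) (hb : |b| ≤ π) :
    TT A N k n = ‖path (fun z => (((‖brf (v0 N) n‖ / ‖brf (v0 N) k‖) ^ 2 : ℝ) : ℂ) * Fi2 A N k d z)
      h η b‖ / (2 * π) := by
  have hp' := Real.pi_pos
  have hd : N - 1 - n = d := by omega
  unfold TT
  rw [hd, hP A N k d hN h η b hh hη hb, path_mul, norm_mul, norm_mul, Complex.norm_real,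
    Real.norm_eq_abs, abs_of_nonneg (by positivity)]
  simp only [norm_neg, Complex.norm_ofNat]
  field_simp
  ring

/-- lower bound -/
theorem low (hP : S_PATH2) (hV : S_VERT2) (hB : S_PB2) {A : ℕ} {α₀ b₀ η : ℝ}
    (hG : Good A α₀ b₀ η) (ε : ℝ) (hε : 0 < ε) : ∀ᶠ N : ℕ in atTop, ∃ k n : ℕ, k ≤ n ∧ n < N ∧
    Real.exp (N / (4 * π) * (2 * hp ((A : ℝ) / 2) α₀ b₀ η) - ε * N) ≤ TT A N k n := by
  have hC := hG.c
  have hp' := Real.pi_pos
  have hA' : (2 : ℝ) ≤ A := by exact_mod_cast hG.hA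
  set m : ℝ := (A : ℝ) / 2 with hm
  have hm2 : 1 ≤ m := by rw [hm]; linarith
  have hm0 : 0 < m := by linarith
  have hAm : (A : ℝ) = 2 * m := by rw [hm]; ring
  set V := hp m α₀ b₀ η with hVd
  set Λ := GapVol.lob (π / 6) with hΛ
  have hΛ0 : 0 < Λ := lob6_pos
  have hV10 := hG.v
  have hbnd := hG.bd
  rw [← hm] at hV10 hbnd
  rw [← hVd, ← hΛ] at hV10
  have hη := hC.hη
  have hα0 := hC.hα
  have hα2 := hC.hα2
  have hαπ : α₀ < π := by linarith
  have hpm : 0 < π / m := by positivity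
  have hpm2 : π / m ≤ π := div_le_self hp'.le hm2
  set b₁ := π / m with hb₁
  have hb1a : b₀ < b₁ := by
    rw [hb₁, lt_div_iff₀ hm0]
    linarith [hC.hbm]
  have hb1b : b₁ ≤ π := hpm2
  have hb10 : 0 < b₁ := lt_trans hC.hb hb1a
  obtain ⟨c, hc, hquad⟩ := hG.q
  rw [← hm, ← hb₁, ← hVd] at hquad
  obtain ⟨-, hb2i, hb3i⟩ := hbnd α₀ hα0.le hαπ.le
  set δ : ℝ := min (c * (b₁ - b₀) ^ 2) Λ with hδd
  have hδ0 : 0 < δ := by
    apply lt_min _ hΛ0
    have : 0 < b₁ - b₀ := by linarith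
    positivity
  have hδ1 : δ ≤ c * (b₁ - b₀) ^ 2 := min_le_left _ _
  have hδ2 : δ ≤ Λ := min_le_right _ _
  set h : ℝ := min η (min (Λ / (2 * π * m)) (δ / (8 * π * m))) with hhd
  have hh : 0 < h := lt_min hη (lt_min (by positivity) (by positivity))
  have hhη : h ≤ η := min_le_left _ _
  have hh1 : 2 * π * m * h ≤ Λ := by
    have h1 : h ≤ Λ / (2 * π * m) := le_trans (min_le_right _ _) (min_le_left _ _)
    rw [le_div_iff₀ (by positivity)] at h1
    linarith
  have hh2 : 8 * π * m * h ≤ δ := by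
    have h1 : h ≤ δ / (8 * π * m) := le_trans (min_le_right _ _) (min_le_right _ _)
    rw [le_div_iff₀ (by positivity)] at h1
    linarith
  -- off-critical estimates at `α₀`
  have hq1 : hp m α₀ b₁ η ≤ V - δ := by
    have := hquad b₁ (by linarith) le_rfl
    linarith
  have w2 : ∀ y, h ≤ y → y ≤ η → hp m α₀ b₁ y ≤ V - δ := by
    intro y hy hy'
    have := hb2i y (by linarith) hy'
    linarith
  have w1 : ∀ b, b₁ ≤ b → b ≤ π → hp m α₀ b h ≤ V - δ / 2 := by
    intro b hb hb'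
    have h1 := hb3i h b hh hhη hb hb'
    linarith
  -- constants
  set ε' : ℝ := min (ε / 4) (δ / (200 * π)) with hε'
  have hε0 : 0 < ε' := lt_min (by positivity) (by positivity)
  have hε1 : ε' ≤ ε / 4 := min_le_left _ _
  have hε2 : ε' * (200 * π) ≤ δ := by
    have h1 := min_le_right (ε / 4) (δ / (200 * π))
    rw [← hε', le_div_iff₀ (by positivity)] at h1
    exact h1
  obtain ⟨ρ, hρ0, hρ⟩ := hp_unif (H := η) hh m α₀ (ρ := min (δ / 4) (2 * π * ε'))
    (lt_min (by positivity) (by positivity))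
  obtain ⟨δ₂, hδ₂, hhor⟩ := horiz hG rfl hb1a
  have e1 := hB A h η ε' hh hε0
  have e2 := hV A ε' hε0
  set K : ℝ := Real.sinh h * h + 1 * (2 * π) + 1 * η + Real.sinh η * η with hK
  have hsh : 0 ≤ Real.sinh h := Real.sinh_nonneg_iff.2 hh.le
  have hsη : 0 ≤ Real.sinh η := Real.sinh_nonneg_iff.2 hη.le
  have hK0 : 0 < K := by
    have : 0 ≤ Real.sinh h * h := by positivity
    have : 0 ≤ Real.sinh η * η := by positivity
    rw [hK]
    positivity
  have e3 := exp_small (c := δ₂ / (2 * K)) (ε := ε') (by positivity) hε0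
  have e4 := exp_small (c := δ₂ / (4 * π)) (ε := ε') (by positivity) hε0
  have e5 : ∀ᶠ N : ℕ in atTop, 2 * π / N ≤ ρ := by
    have : Tendsto (fun N : ℕ => 2 * π / (N : ℝ)) atTop (𝓝 0) :=
      tendsto_const_div_atTop_nhds_zero_nat _
    exact (this.eventually_lt_const hρ0).mono (fun N hN => hN.le)
  filter_upwards [e1, e2, e3, e4, e5, hhor, eventually_ge_atTop 2] with
    N h1 h2 h3 h4 h5 h6 hN2
  have hN0 : 0 < N := by omega
  have hNp : (0 : ℝ) < N := by exact_mod_cast hN0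
  have hd := dN_lt hα0.le hαπ hN0
  have hd4 := dN_le hα0.le hα2 (N := N)
  set d := dN α₀ N with hdd
  set α : ℝ := 2 * π * d / N with hα
  have hdist : |α - α₀| ≤ ρ := by
    have := dN_close hα0.le N
    have e : α - α₀ = (2 * π * (dN α₀ N) - α₀ * N) / N := by
      rw [hα]
      field_simp
      rw [hdd]
    rw [e, abs_div, abs_of_pos hNp]
    exact le_trans (div_le_div_of_nonneg_right this hNp.le) h5
  have hclose := hρ α hdist
  set n := N - 1 - d with hn
  have hnd : n + d + 1 = N := by omega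
  have hdn : d ≤ n := by omega
  refine ⟨d, n, hdn, by omega, ?_⟩
  have hb1π : |b₁| ≤ π := by rw [abs_of_pos hb10]; linarith
  rw [TT_path hP A hN2 hnd hh hhη hb1π]
  set k : ℝ := (‖brf (v0 N) n‖ / ‖brf (v0 N) d‖) ^ 2 with hk
  have hk0 : 0 < k := by
    have b1 : brf (v0 N) n ≠ 0 := TE.brf_ne hN2 _ (by omega)
    have b2 : brf (v0 N) d ≠ 0 := TE.brf_ne hN2 _ (by omega)
    have : 0 < ‖brf (v0 N) n‖ := norm_pos_iff.2 b1
    have : 0 < ‖brf (v0 N) d‖ := norm_pos_iff.2 b2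
    positivity
  have hnorm : ∀ z : ℂ, ‖((k : ℝ) : ℂ) * Fi2 A N d d z‖ = k * ‖Fi2 A N d d z‖ := by
    intro z
    rw [norm_mul, Complex.norm_real, Real.norm_eq_abs, abs_of_nonneg hk0.le]
  -- the pointwise bounds
  have hpt : ∀ b y : ℝ, h ≤ y → y ≤ η →
      Real.exp (N / (4 * π) * (2 * hp m α b y) - ε' * N) ≤ k * ‖Fi2 A N d d (-b + y * Complex.I)‖ ∧
      k * ‖Fi2 A N d d (-b + y * Complex.I)‖ ≤ Real.exp (N / (4 * π) * (2 * hp m α b y) + ε' * N) := by
    intro b y hy hy'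
    have g1 := h1 d d n hnd hdn b y hy hy'
    rw [← hk, ← hm, ← hα] at g1
    have g2 : 0 < k * ‖Fi2 A N d d (-b + y * Complex.I)‖ := by
      have := norm_pos_iff.2 (Fi2_ne A (N := N) (k := d) (d := d) hN0 (b := b) (lt_of_lt_of_le hh hy))
      positivity
    rw [abs_le] at g1
    have e : hp m α b y + hp m α b y = 2 * hp m α b y := by ring
    rw [e] at g1
    rw [← Real.le_log_iff_exp_le g2, ← Real.log_le_iff_le_exp g2]
    constructor <;> linarith [g1.1, g1.2]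
  set E := Real.exp (N / (4 * π) * (2 * (V - δ / 4)) + ε' * N) with hE
  have hE0 : 0 < E := Real.exp_pos _
  have hpN : 0 < N / (4 * π) := by positivity
  have hVδ : 0 ≤ V - δ / 4 := by linarith
  have hVN : 0 ≤ N / (4 * π) * (2 * (V - δ / 4)) := by positivity
  have key := path_sub_le (f := fun z => ((k : ℝ) : ℂ) * Fi2 A N d d z) hh.le hhη
    (b := b₁) (by linarith) (B1 := Real.sinh h * E) (B2 := E) (B3 := E)
    (B5 := Real.sinh η * E) ?_ ?_ ?_ ?_
  · -- conclusion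
    have hint : ‖∫ x in (-b₁)..π, ((k : ℝ) : ℂ) * Fi2 A N d d (x + η * Complex.I)‖ =
        k * ‖∫ x in (-b₁)..π, Fi2 A N d d (x + η * Complex.I)‖ := by
      rw [intervalIntegral.integral_const_mul, norm_mul, Complex.norm_real, Real.norm_eq_abs,
        abs_of_nonneg hk0.le]
    have key' : k * ‖∫ x in (-b₁)..π, Fi2 A N d d (x + η * Complex.I)‖ ≤
        ‖path (fun z => ((k : ℝ) : ℂ) * Fi2 A N d d z) h η b₁‖ +
          (Real.sinh h * E * h + E * (π - b₁) + E * (η - h) + Real.sinh η * E * η) := by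
      rw [← hint]
      exact key
    have hrest : Real.sinh h * E * h + E * (π - b₁) + E * (η - h) + Real.sinh η * E * η ≤ E * K := by
      have g1 : E * (π - b₁) ≤ E * (2 * π) := mul_le_mul_of_nonneg_left (by linarith) hE0.le
      have g2 : E * (η - h) ≤ E * η := mul_le_mul_of_nonneg_left (by linarith) hE0.le
      have g3 : E * K = Real.sinh h * E * h + E * (2 * π) + E * η + Real.sinh η * E * η := by
        rw [hK]
        ring
      rw [g3]
      linarith
    have hmain := (hpt b₀ η hhη le_rfl).1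
    have hpot : V - 2 * π * ε' ≤ hp m α b₀ η := by
      have := (abs_le.1 (hclose b₀ η hhη le_rfl)).1
      have := min_le_right (δ / 4) (2 * π * ε')
      linarith
    have hmain2 : Real.exp (N / (4 * π) * (2 * V) - 2 * ε' * N) ≤
        k * ‖Fi2 A N d d (-b₀ + η * Complex.I)‖ := by
      refine le_trans (Real.exp_le_exp.2 ?_) hmain
      have : N / (4 * π) * (2 * (V - 2 * π * ε')) ≤ N / (4 * π) * (2 * hp m α b₀ η) :=
        mul_le_mul_of_nonneg_left (by linarith) hpN.le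
      have e : N / (4 * π) * (2 * (V - 2 * π * ε')) = N / (4 * π) * (2 * V) - ε' * N := by
        field_simp
        ring
      linarith
    have hsq : 0 < δ₂ / Real.sqrt N := by
      have : 0 < Real.sqrt N := Real.sqrt_pos.2 hNp
      positivity
    set G := Real.exp (N / (4 * π) * (2 * V) - 2 * ε' * N) with hG'
    have hG0 : 0 < G := Real.exp_pos _
    have hlow : G * (δ₂ / Real.sqrt N) ≤
        k * ‖∫ x in (-b₁)..π, Fi2 A N d d (x + η * Complex.I)‖ := by
      calc G * (δ₂ / Real.sqrt N) ≤ (k * ‖Fi2 A N d d (-b₀ + η * Complex.I)‖) * (δ₂ / Real.sqrt N) :=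
            mul_le_mul_of_nonneg_right hmain2 hsq.le
        _ = k * (‖Fi2 A N d d (-b₀ + η * Complex.I)‖ * (δ₂ / Real.sqrt N)) := by ring
        _ ≤ _ := mul_le_mul_of_nonneg_left h6 hk0.le
    -- E K ≤ G δ₂/(2 √N)
    have hEG : E * K ≤ G * (δ₂ / Real.sqrt N) / 2 := by
      have hexp : E ≤ G * Real.exp (-(ε' * N)) := by
        rw [hE, hG', ← Real.exp_add]
        apply Real.exp_le_exp.2
        have : N / (4 * π) * (2 * (V - δ / 4)) = N / (4 * π) * (2 * V) - δ / (8 * π) * N := by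
          field_simp
          ring
        rw [this]
        have h7 : 4 * ε' ≤ δ / (8 * π) := by
          rw [le_div_iff₀ (by positivity)]
          nlinarith
        have h8 : 4 * ε' * N ≤ δ / (8 * π) * N := mul_le_mul_of_nonneg_right h7 hNp.le
        linarith
      have h9 : Real.exp (-(ε' * N)) * K ≤ δ₂ / Real.sqrt N / 2 := by
        calc Real.exp (-(ε' * N)) * K ≤ (δ₂ / (2 * K) / Real.sqrt N) * K :=
              mul_le_mul_of_nonneg_right h3 hK0.le
          _ = δ₂ / Real.sqrt N / 2 := by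
            field_simp
      calc E * K ≤ (G * Real.exp (-(ε' * N))) * K := mul_le_mul_of_nonneg_right hexp hK0.le
        _ = G * (Real.exp (-(ε' * N)) * K) := by ring
        _ ≤ G * (δ₂ / Real.sqrt N / 2) := mul_le_mul_of_nonneg_left h9 hG0.le
        _ = _ := by ring
    rw [le_div_iff₀ (by positivity)]
    have hfin : G * (δ₂ / Real.sqrt N) / 2 ≤
        ‖path (fun z => ((k : ℝ) : ℂ) * Fi2 A N d d z) h η b₁‖ := by
      linarith
    refine le_trans ?_ hfin
    have h10 : Real.exp (N / (4 * π) * (2 * V) - ε * N) ≤ G * Real.exp (-(ε' * N)) := by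
      rw [hG', ← Real.exp_add]
      apply Real.exp_le_exp.2
      have : 4 * ε' * N ≤ ε * N := mul_le_mul_of_nonneg_right (by linarith) hNp.le
      have : 0 ≤ ε' * N := by positivity
      linarith
    calc Real.exp (N / (4 * π) * (2 * V) - ε * N) * (2 * π) ≤ (G * Real.exp (-(ε' * N))) * (2 * π) :=
          mul_le_mul_of_nonneg_right h10 (by positivity)
      _ = G * (Real.exp (-(ε' * N)) * (2 * π)) := by ring
      _ ≤ G * ((δ₂ / (4 * π) / Real.sqrt N) * (2 * π)) := by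
          apply mul_le_mul_of_nonneg_left _ hG0.le
          exact mul_le_mul_of_nonneg_right h4 (by positivity)
      _ = G * (δ₂ / Real.sqrt N) / 2 := by
          field_simp
          ring
  · intro y hy hy'
    rw [hnorm]
    refine le_trans (h2 d d n hnd (by omega) (by omega) y hy).2 ?_
    have hs1 : Real.sinh y ≤ Real.sinh h := Real.sinh_le_sinh.2 hy'
    apply mul_le_mul hs1 _ (Real.exp_pos _).le hsh
    apply Real.exp_le_exp.2
    have hmy : m * y ≤ m * h := mul_le_mul_of_nonneg_left hy' hm0.le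
    have h7 : (A : ℝ) * N * y / 2 ≤ N / (4 * π) * (2 * (V - δ / 4)) := by
      have e : (A : ℝ) * N * y / 2 = N / (4 * π) * (2 * (2 * π * (m * y))) := by
        rw [hAm]
        field_simp
        ring
      rw [e]
      apply mul_le_mul_of_nonneg_left _ hpN.le
      nlinarith
    linarith
  · intro x hx hx'
    rw [hnorm]
    refine le_trans (hpt x h le_rfl hhη).2 ?_
    apply Real.exp_le_exp.2
    have h7 : hp m α x h ≤ V - δ / 4 := by
      have := (abs_le.1 (hclose x h le_rfl hhη)).2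
      have := w1 x hx hx'
      have := min_le_left (δ / 4) (2 * π * ε')
      linarith
    have := mul_le_mul_of_nonneg_left (show 2 * hp m α x h ≤ 2 * (V - δ / 4) by linarith) hpN.le
    linarith
  · intro y hy hy'
    rw [hnorm]
    refine le_trans (hpt b₁ y hy hy').2 ?_
    apply Real.exp_le_exp.2
    have h7 : hp m α b₁ y ≤ V - δ / 4 := by
      have := (abs_le.1 (hclose b₁ y hy hy')).2
      have := w2 y hy hy'
      have := min_le_left (δ / 4) (2 * π * ε')
      linarith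
    have := mul_le_mul_of_nonneg_left (show 2 * hp m α b₁ y ≤ 2 * (V - δ / 4) by linarith) hpN.le
    linarith
  · intro y hy hy'
    rw [hnorm]
    refine le_trans (h2 d d n hnd (by omega) (by omega) y hy).1 ?_
    have hs1 : Real.sinh y ≤ Real.sinh η := Real.sinh_le_sinh.2 hy'
    apply mul_le_mul hs1 _ (Real.exp_pos _).le hsη
    apply Real.exp_le_exp.2
    linarith

end Run7.h858.A3.Low
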