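import Pool.Agent.Run7.h858.A3.Gr
import Pool.Agent.Run7.h858.A3.Up
import Pool.Agent.Run7.h858.A3.Low
import Pool.Agent.Run7.h858.A3.Geo
import Pool.Agent.Run7.h858.A3.Crit3
import Pool.Agent.Run7.h858.A3.Mx3

set_option autoImplicit false

/-!
# The growth of the traces of the braids `(σ₁³ σ₂⁻³)^n`
-/

namespace Run7.h858.A3

open Filter Finset Pool.Agent.W719.BX
open Pool.Agent.W715.VC hiding SS
open Pool.Agent.W709.VC (ell Lf pot lob6_pos)
open scoped Real Topology

/-- the growth of the trace of `σ₁^A σ₂^{-A}` -/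
theorem trace_growth' {A : ℕ} {α b η : ℝ} (hG : Good A α b η) :
    Tendsto (fun N : ℕ => 2 * Real.pi / N *
      Real.log ‖(rep3 N (uA A ++ dual (uA A))).trace‖) atTop
      (𝓝 (2 * hp ((A : ℝ) / 2) α b η)) := by
  have hpos : 0 < 2 * hp ((A : ℝ) / 2) α b η := by
    have h1 := hG.v
    have h2 := lob6_pos
    linarith
  set T : ℕ → ℝ := fun N => if N < 2 then 0 else SS A N with hT
  set S : ℕ → ℝ := fun N => if N < 2 then 0 else ‖(rep3 N (uA A ++ dual (uA A))).trace‖ with hS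
  have hT2 : ∀ N, 2 ≤ N → T N = SS A N := fun N hN => if_neg (by omega)
  have hS2 : ∀ N, 2 ≤ N → S N = ‖(rep3 N (uA A ++ dual (uA A))).trace‖ := fun N hN =>
    if_neg (by omega)
  have hT1 : ∀ N, N < 2 → T N = 0 := fun N hN => if_pos hN
  have hS1 : ∀ N, N < 2 → S N = 0 := fun N hN => if_pos hN
  have hT0 : ∀ N, 0 ≤ T N := fun N => by
    by_cases h : N < 2
    · rw [hT1 N h]
    · rw [hT2 N (by omega)]
      exact SS_nonneg A N
  have h := growth_abs (T := T) (S := S) hT0 (n := 1) one_ne_zero ?_ ?_ hpos ?_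
  · rw [Nat.cast_one, one_mul] at h
    refine h.congr' ?_
    filter_upwards [eventually_ge_atTop 2] with N hN
    rw [hS2 N hN]
  · intro N hN
    rcases lt_or_ge N 2 with h2 | h2
    · rw [hT1 N h2, hS1 N h2]
      positivity
    · rw [hT2 N h2, hS2 N h2, pow_one]
      refine (s_trb A N h2).1.trans ?_
      have h3 : (2 : ℝ) ≤ N := by exact_mod_cast h2
      apply mul_le_mul_of_nonneg_left _ (by positivity)
      have : 2 * (N : ℝ) ≤ (N : ℝ) ^ 3 := by
        have h4 : 0 ≤ (N : ℝ) ^ 2 - 2 := by nlinarith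
        have h5 := mul_nonneg (show (0 : ℝ) ≤ N by linarith) h4
        nlinarith
      linarith
  · intro N hN
    rcases lt_or_ge N 2 with h2 | h2
    · rw [hT1 N h2, hS1 N h2, zero_div, pow_one, zero_add]
      positivity
    · rw [hT2 N h2, hS2 N h2, pow_one]
      have h3 := (s_trb A N h2).2
      have h4 : (2 : ℝ) ≤ N := by exact_mod_cast h2
      have h5 : SS A N / (N : ℝ) ^ 3 ≤ SS A N / N := by
        apply div_le_div_of_nonneg_left (SS_nonneg A N) (by linarith)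
        have h6 : 0 ≤ (N : ℝ) ^ 2 - 1 := by nlinarith
        have h7 := mul_nonneg (show (0 : ℝ) ≤ N by linarith) h6
        nlinarith
      linarith
  · have hup : ∀ ε : ℝ, 0 < ε → ∀ᶠ N : ℕ in atTop, ∀ k n : ℕ, k ≤ n → n < N →
        TT A N k n ≤ Real.exp (N / (4 * π) * (2 * hp ((A : ℝ) / 2) α b η) + ε * N) :=
      fun ε hε => Up.up Pool.Agent.W193.BX.path Pool.Agent.W347.BX.vert Pool.Agent.W347.BX.pb
        (Pool.Agent.W605.BX.simp W349.BX.lag) hG ε hε
    have hlow : ∀ ε : ℝ, 0 < ε → ∀ᶠ N : ℕ in atTop, ∃ k n : ℕ, k ≤ n ∧ n < N ∧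
        Real.exp (N / (4 * π) * (2 * hp ((A : ℝ) / 2) α b η) - ε * N) ≤ TT A N k n :=
      fun ε hε => Low.low Pool.Agent.W193.BX.path Pool.Agent.W347.BX.vert Pool.Agent.W347.BX.pb
        hG ε hε
    refine (Gr.gr hup hlow).congr' ?_
    filter_upwards [eventually_ge_atTop 2] with N hN
    rw [hT2 N hN]

/-- the growth of the traces of the powers, with the geometric limit -/
theorem main' {A : ℕ} {α b η : ℝ} (hG : Good A α b η) {n : ℕ} (hn : 1 ≤ n) : ∃ V : ℝ,
    IsGreatest {W : ℝ | ∃ w, bAngleN A n w ∧ bvolN A n w = W} V ∧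
    V = n * (2 * hp ((A : ℝ) / 2) α b η) ∧
    Tendsto (fun N : ℕ => 2 * Real.pi / N *
      Real.log ‖(rep3 N (wpow (uA A ++ dual (uA A)) n)).trace‖) atTop (𝓝 V) := by
  have hpos : 0 < 2 * hp ((A : ℝ) / 2) α b η := by
    have h1 := hG.v
    have h2 := lob6_pos
    linarith
  have h1 := (Geo.hb_of_crit Pool.Agent.W214.BX.alg2 hG.hA hG.hb hG.c).greatestN
    Pool.Agent.W120.VC.tet n
  rw [Geo.geo_value Pool.Agent.W214.BX.alg2 Pool.Agent.W389.BX.tel hG.hA hG.hb hG.c] at h1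
  refine ⟨_, h1, rfl, ?_⟩
  refine growth_pow (u := uA A) ?_ (by omega) hpos (trace_growth' hG)
  intro l hl
  unfold uA at hl
  rw [List.eq_of_mem_replicate hl]
  norm_num

end Run7.h858.A3
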